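import Pool.Agent.H46.S6.Str
import Pool.Agent.H8.DPL.Stmt

/-!
# The double plateau, part (alpha): one family

`N + 1` windows `w 0 < w 1 < ... < w N`, `M` rows. One constant frame `(a, s, t)`, a function of the
line and of the largest window `w 0`. The context of the window `w j` and of the row `k` is the
natural box with the velocity levels `q + k X`, `q + k X + V`, `q + k X + V + H`. At the exact
points the velocities are `d_u = al d_e + nu` and `d_N - s d_u - t d_e = kk d_e + bb`; the own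
slopes in the units of the boxes are `2 ^ V (al - a)` and `2 ^ (V + H) kk`. The own slopes of a
typical line are not in a strip.
-/

set_option autoImplicit false

namespace Pool.DPA

open Finset Real
open Pool.Agent.H49.Ent Pool.Agent.H32.Dense Pool.STK Pool.KA Pool.KSAT Pool.K2S

variable {J : ℕ}

/-- The own slopes, in the units of the boxes. -/
noncomputable def slp (F : Fam 3 J) (V H : ℕ) (a : F.Ω → ℝ)
    (al kk : (Fin 3 → ℤ) × (ℕ × F.ζ) → ℝ) (ω : F.Ω) : Fin 2 → ℝ :=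
  ![2 ^ V * (al (Fam.pt F ω) - a ω), 2 ^ (V + H) * kk (Fam.pt F ω)]

/-- The data of one family. -/
structure DIa (F : Fam 3 J) (A : F.Ω → Prop) (σ : Fin 3 → Fin 3) (N M X : ℕ) (w : ℕ → ℕ)
    (q V H : ℕ) (a s t : F.Ω → ℝ) (al nu kk bb : (Fin 3 → ℤ) × (ℕ × F.ζ) → ℝ)
    (B c ca x₀ lm κ ϖ : ℝ) : Prop where
  bij : Function.Bijective σ
  law : IsLaw (Pool.Agent.H49.Ent.cond F.p A True)
  /-- the windows -/
  step : ∀ j < N, w j + X ≤ w (j + 1)
  top : w N + q + V + H + (M + 2) * X ≤ J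
  /-- the time is full given the line -/
  time : (J : ℝ) * Real.log 2 - lm * X ≤
    CH (Pool.Agent.H49.Ent.cond F.p A True) F.T (fun ω => (F.l ω, F.Z ω))
  /-- the frame is a function of the line and of the largest window, and visible -/
  det : Det (Pool.Agent.H49.Ent.cond F.p A True) (slam F (w 0)) (fun ω => (a ω, s ω, t ω))
  vdt : CH (Pool.Agent.H49.Ent.cond F.p A True) (fun ω => (a ω, s ω, t ω)) (Fam.pt F) ≤ lm * X
  bd : ∀ ω, A ω → |a ω| ≤ B ∧ |s ω| ≤ B ∧ |t ω| ≤ B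
  /-- the velocities at the exact points -/
  on1 : ∀ ω, A ω → |F.d ω (σ 1) - al (Fam.pt F ω) * F.d ω (σ 0) - nu (Fam.pt F ω)| ≤
    B / 2 ^ (q + V + (M + 1) * X)
  on2 : ∀ ω, A ω → |F.d ω (σ 2) - s ω * F.d ω (σ 1) - t ω * F.d ω (σ 0) - bb (Fam.pt F ω) -
    kk (Fam.pt F ω) * F.d ω (σ 0)| ≤ B / 2 ^ (q + V + H + (M + 1) * X)
  an1 : ∀ ω, A ω → |al (Fam.pt F ω) - a ω| ≤ B / 2 ^ V
  an2 : ∀ ω, A ω → |kk (Fam.pt F ω)| ≤ B / 2 ^ (V + H)
  /-- the block of the position is not full -/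
  dfc : ∀ j < N, ∀ k < M, ∀ E : F.Ω → Prop, Sub E A → ϖ * Pe F.p A ≤ Pe F.p E →
    CH (Pool.Agent.H49.Ent.cond F.p E True)
      (F.sbx σ (w j + q + k * X + X) (w j + q + V + k * X + X) (w j + q + V + H + k * X + X) a s t)
      (fun ω => (F.sbx σ (w j + q + k * X) (w j + q + V + k * X) (w j + q + V + H + k * X) a s t ω,
        F.W ω)) ≤ (3 - c) * X * Real.log 2
  /-- the velocity is active given the exact point -/
  act : ∀ k < M, ∀ n X' : ℕ, κ * X ≤ X' → n + X' ≤ X → ∀ E : F.Ω → Prop, Sub E A →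
    ϖ * Pe F.p A ≤ Pe F.p E → ca * X' * Real.log 2 ≤
      CH (Pool.Agent.H49.Ent.cond F.p E True)
        (fun ω => F.D (q + k * X + n + X') ω (σ 0))
        (fun ω => (F.D (q + k * X + n) ω (σ 0), Fam.pt F ω))
  /-- the own slopes of a typical line are not in a strip -/
  str : ∀ j < N, Pool.PLV.NStr (Pool.Agent.H49.Ent.cond F.p A True) (slam F (w j))
    (slp F V H a al kk) ((2 : ℝ) ^ (-(x₀ * X))) (1 / 4)

/-- **The double plateau, part (alpha), one family.** -/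
def DplAStmt : Prop :=
  ∀ c ca B : ℝ, 0 < c → 0 < ca → 1 ≤ B →
    ∃ (x₀ lm κ ϖ : ℝ) (X₀ N M : ℕ), 0 < x₀ ∧ 0 < lm ∧ 0 < κ ∧ κ ≤ 1 ∧ 0 < ϖ ∧ ϖ ≤ 1 ∧
      0 < N ∧ 0 < M ∧ ∀ (J : ℕ) (F : Fam 3 J) (A : F.Ω → Prop) (σ : Fin 3 → Fin 3) (X : ℕ)
      (w : ℕ → ℕ) (q V H : ℕ) (a s t : F.Ω → ℝ) (al nu kk bb : (Fin 3 → ℤ) × (ℕ × F.ζ) → ℝ),
      X₀ ≤ X → DIa F A σ N M X w q V H a s t al nu kk bb B c ca x₀ lm κ ϖ → False

end Pool.DPA
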