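import Pool.Agent.H46.S6.Str
import Pool.Agent.H20.S6B.Dpl
import Pool.Agent.H45.RPL.Hyp

/-!
# Plateaus in one family, any number of coordinates: the dictionary

The context is the natural box `F.blb w c M`. `S` is the own slope in units of the box: a function
of the exact point and of the frame.
-/

set_option autoImplicit false

namespace Pool.DPA

open Finset Real
open Pool.Agent.H49.Ent Pool.Agent.H32.Dense Pool.STK Pool.KA Pool.KSAT Pool.K2S Pool.S6U
open Pool.PLV Pool.DPL Pool.S6B20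

variable {c' J : ℕ}

/-- The digits of the own slope. -/
noncomputable def sdg {Ω : Type} (X : ℕ) (S : Ω → Fin c' → ℝ) (ω : Ω) (i : Fin c') : ℤ :=
  ⌊(2 : ℝ) ^ X * S ω i⌋

/-- The own slope, rounded. -/
noncomputable def srd {Ω : Type} (X : ℕ) (S : Ω → Fin c' → ℝ) (ω : Ω) (i : Fin c') : ℝ :=
  (sdg X S ω i : ℝ) / 2 ^ X

/-- The data in one context. -/
structure GDat (F : Fam (c' + 1) J) (Q : F.Ω → ℝ) (w X : ℕ) (c : Fin (c' + 1) → ℕ)
    (M : F.Ω → Fin (c' + 1) → Fin (c' + 1) → ℝ) (S W : F.Ω → Fin c' → ℝ) (B : ℝ) : Prop where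
  law : IsLaw Q
  wJ : w ≤ J
  lev : ∀ i, c i + w + X ≤ J
  det : Det Q (slam F w) M
  bd : ∀ ω, 0 < Q ω → ∀ i j, |M ω i j| ≤ B
  dS : Det Q (fun ω => (Fam.pt F ω, M ω)) S
  dW : Det Q (fun ω => (Fam.pt F ω, M ω)) W
  Sb : ∀ ω, 0 < Q ω → ∀ i, |S ω i| ≤ B
  str : ∀ ω, 0 < Q ω → ∀ i : Fin c', |2 ^ c i.succ * mco (M ω) (F.d ω) i.succ -
    S ω i * (2 ^ c 0 * mco (M ω) (F.d ω) 0) - W ω i| ≤ B / 2 ^ X

section dict

variable {F : Fam (c' + 1) J} {Q : F.Ω → ℝ} {w X : ℕ} {c : Fin (c' + 1) → ℕ}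
  {M : F.Ω → Fin (c' + 1) → Fin (c' + 1) → ℝ} {S W : F.Ω → Fin c' → ℝ} {B : ℝ}

/-- The exact point at the resolution of the family. -/
noncomputable def xJ {m : ℕ} {F : Fam m J} (p : (Fin m → ℤ) × (ℕ × F.ζ)) (i : Fin m) : ℝ :=
  (p.1 i : ℝ) / 2 ^ J

theorem xJ_near {m : ℕ} {F : Fam m J} (ω : F.Ω) (i : Fin m) :
    |F.x ω i - xJ (Fam.pt F ω) i| ≤ 1 / 2 ^ J := by
  rw [abs_sub_comm]
  exact Pool.RPL.fl_near (F.x ω i) J

theorem row_near (ω : F.Ω) (hb : ∀ i j, |M ω i j| ≤ B) (i : Fin (c' + 1)) :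
    |mco (M ω) (F.x ω) i - mco (M ω) (xJ (Fam.pt F ω)) i| ≤ (c' + 1) * B / 2 ^ J := by
  have e1 : mco (M ω) (F.x ω) i - mco (M ω) (xJ (Fam.pt F ω)) i =
      ∑ j, M ω i j * (F.x ω j - xJ (Fam.pt F ω) j) := by
    unfold mco
    rw [← Finset.sum_sub_distrib]
    exact Finset.sum_congr rfl fun j _ => by ring
  rw [e1]
  refine (Finset.abs_sum_le_sum_abs _ _).trans ?_
  have h1 : ∀ j ∈ (univ : Finset (Fin (c' + 1))), |M ω i j * (F.x ω j - xJ (Fam.pt F ω) j)| ≤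
      B / 2 ^ J := by
    intro j _
    rw [abs_mul, div_eq_mul_one_div B]
    exact mul_le_mul (hb i j) (xJ_near ω j) (abs_nonneg _) ((abs_nonneg _).trans (hb i j))
  refine (Finset.sum_le_sum h1).trans (le_of_eq ?_)
  rw [Finset.sum_const, card_univ, Fintype.card_fin, nsmul_eq_mul]
  push_cast
  ring

/-- The position at the own time is visible. -/
theorem pos_near (hd : GDat F Q w X c M S W B) {ω : F.Ω} (hω : 0 < Q ω) (i : Fin (c' + 1)) :
    |F.mx w c M ω i - (2 ^ (c i + w) * mco (M ω) (xJ (Fam.pt F ω)) i - F.mkn w c M ω i)| *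
      2 ^ X ≤ (c' + 1) * B := by
  have k3 := Box.pos_eq F hd.wJ c M ω i
  have k4 := row_near (M := M) ω (hd.bd ω hω) i
  have e1 : F.mx w c M ω i - (2 ^ (c i + w) * mco (M ω) (xJ (Fam.pt F ω)) i - F.mkn w c M ω i) =
      2 ^ (c i + w) * (mco (M ω) (F.x ω) i - mco (M ω) (xJ (Fam.pt F ω)) i) := by
    linear_combination -k3
  have hB : 0 ≤ B := (abs_nonneg _).trans (hd.bd ω hω i i)
  rw [e1, abs_mul, abs_of_pos (by positivity : (0 : ℝ) < 2 ^ (c i + w))]
  have e2 : (2 : ℝ) ^ (c i + w) * |mco (M ω) (F.x ω) i - mco (M ω) (xJ (Fam.pt F ω)) i| * 2 ^ X =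
      2 ^ (c i + w + X) * |mco (M ω) (F.x ω) i - mco (M ω) (xJ (Fam.pt F ω)) i| := by
    rw [pow_add _ _ X]
    ring
  rw [e2]
  calc _ ≤ (2 : ℝ) ^ J * ((c' + 1) * B / 2 ^ J) := by
        refine mul_le_mul (pow_le_pow_right₀ (by norm_num) (hd.lev i)) k4 (abs_nonneg _)
          (by positivity)
    _ = (c' + 1) * B := by field_simp

theorem srd_near (X : ℕ) (S : F.Ω → Fin c' → ℝ) (ω : F.Ω) (i : Fin c') :
    |srd X S ω i - S ω i| * 2 ^ X ≤ 1 := Pool.RPL.fl_near' (S ω i) X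

theorem srd_le (hd : GDat F Q w X c M S W B) {ω : F.Ω} (hω : 0 < Q ω) (i : Fin c') :
    |srd X S ω i| ≤ B + 1 := by
  have h1 := srd_near X S ω i
  have h2 := hd.Sb ω hω i
  have h3 : (1 : ℝ) ≤ 2 ^ X := one_le_pow₀ (by norm_num)
  have h4 := abs_nonneg (srd X S ω i - S ω i)
  have h5 : |srd X S ω i - S ω i| ≤ 1 := by nlinarith
  have h6 := abs_add_le (srd X S ω i - S ω i) (S ω i)
  rw [sub_add_cancel] at h6
  linarith

/-- The velocity at an exact point. -/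
theorem vel_near (hd : GDat F Q w X c M S W B) {ω : F.Ω} (hω : 0 < Q ω) (i : Fin c') :
    |F.md c M ω i.succ - srd X S ω i * F.md c M ω 0 -
      (W ω i + S ω i * F.mvl c M ω 0 - F.mvl c M ω i.succ)| * 2 ^ X ≤ B + 1 := by
  have h2 : (0 : ℝ) < 2 ^ X := by positivity
  have m0 := Box.mvl_add F c M ω 0
  have m1 := Box.mvl_add F c M ω i.succ
  have hs := hd.str ω hω i
  have hr := srd_near X S ω i
  obtain ⟨g1, g2⟩ := Box.md_mem F c M ω 0
  have e1 : F.md c M ω i.succ - srd X S ω i * F.md c M ω 0 -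
      (W ω i + S ω i * F.mvl c M ω 0 - F.mvl c M ω i.succ) =
      (2 ^ c i.succ * mco (M ω) (F.d ω) i.succ - S ω i * (2 ^ c 0 * mco (M ω) (F.d ω) 0) -
        W ω i) - (srd X S ω i - S ω i) * F.md c M ω 0 := by
    rw [m0, m1]
    ring
  rw [e1]
  have t1 := abs_sub (2 ^ c i.succ * mco (M ω) (F.d ω) i.succ -
    S ω i * (2 ^ c 0 * mco (M ω) (F.d ω) 0) - W ω i) ((srd X S ω i - S ω i) * F.md c M ω 0)
  have t2 : |(srd X S ω i - S ω i) * F.md c M ω 0| * 2 ^ X ≤ 1 := by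
    rw [abs_mul, abs_of_nonneg g1]
    have : |srd X S ω i - S ω i| * F.md c M ω 0 * 2 ^ X =
        (|srd X S ω i - S ω i| * 2 ^ X) * F.md c M ω 0 := by ring
    rw [this]
    calc (|srd X S ω i - S ω i| * 2 ^ X) * F.md c M ω 0 ≤ 1 * 1 :=
          mul_le_mul hr g2.le g1 zero_le_one
      _ = 1 := one_mul 1
  rw [le_div_iff₀ h2] at hs
  nlinarith [mul_le_mul_of_nonneg_right t1 h2.le]

/-- The line in the context is a function of the line and the window. -/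
theorem place_slam (hd : GDat F Q w X c M S W B) {ω ω' : F.Ω} (hω : 0 < Q ω) (hω' : 0 < Q ω')
    (e : slam F w ω = slam F w ω') : F.blb w c M ω = F.blb w c M ω' ∧
      F.mu w (fun i => c i + w) M ω = F.mu w (fun i => c i + w) M ω' ∧
      F.md c M ω = F.md c M ω' := by
  have e1 : F.l ω = F.l ω' := (Prod.ext_iff.mp e).1
  have e2 := Prod.ext_iff.mp (Prod.ext_iff.mp e).2
  exact Box.label_det F (g := w) (k := fun i => c i + w) (c := c) (M := M) e1 e2.2
    (hd.det ω ω' hω hω' e) e2.1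

theorem wt_eq {ω ω' : F.Ω} (h : F.T ω = F.T ω') : F.wt w ω = F.wt w ω' := by
  unfold Fam.wt
  rw [h]

theorem blb_ext {ω ω' : F.Ω} (h : F.blb w c M ω = F.blb w c M ω') :
    F.T1 w ω = F.T1 w ω' ∧ M ω = M ω' ∧ F.mvl c M ω = F.mvl c M ω' ∧ F.Z ω = F.Z ω' := by
  obtain ⟨m1, m2, m3, m4, m5⟩ := Box.mlb_ext (F := F) (g := w) (k := fun i => c i + w) (c := c)
    (M := M) h
  exact ⟨m1, m2, m4, m5⟩

/-- **The data of the theorem on plateaus.** -/
theorem dpdata (hd : GDat F Q w X c M S W B) (hB : 1 ≤ B) :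
    DP0 c' ((c' + 1) * B + 2) Q (F.blb w c M) (F.blb w c M) (fun _ => ()) (slam F w) F.T
      (fun ω => (F.T ω, sdg X S ω)) (Fam.pt F) (fun ω => F.mu w (fun i => c i + w) M ω 0)
      (bom F c M) (fun ω i => F.mu w (fun i => c i + w) M ω i.succ) (bbe F c M) (F.wt w)
      (srd X S) (by1 F w c M) (bz F w c M) X := by
  have hc : (0 : ℝ) ≤ c' := Nat.cast_nonneg c'
  have hcB : 0 ≤ (c' : ℝ) * B := by positivity
  have pb : ∀ ω i, |F.mx w c M ω i| ≤ (c' + 1) * B + 2 := by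
    intro ω i
    have h1 := Box.mu_mem F w (fun i => c i + w) M ω i
    have h2 := Box.md_mem F c M ω i
    have h3 := Lab.wt_mem F w ω
    have h4 : F.wt w ω * F.md c M ω i ≤ 1 * 1 := mul_le_mul h3.2.le h2.2.le h2.1 zero_le_one
    have h5 : 0 ≤ F.wt w ω * F.md c M ω i := mul_nonneg h3.1 h2.1
    have h6 : F.mx w c M ω i = F.mu w (fun i => c i + w) M ω i + F.wt w ω * F.md c M ω i := rfl
    rw [h6, abs_le]
    constructor <;> nlinarith
  refine ⟨hd.law, ?_, ?_, ?_, ?_, ?_, ?_, ?_, ?_, ?_, ?_, ?_, ?_, ?_, ?_, ?_, ?_, ?_, ?_⟩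
  · intro ω ω' hω hω' e
    exact (place_slam hd hω hω' e).1
  · intro ω ω' hω hω' e
    simp only [(place_slam hd hω hω' e).2.1]
  · intro ω ω' hω hω' e
    exact congrFun (place_slam hd hω hω' e).2.2 0
  · intro ω ω' hω hω' e
    funext i
    simp only [(place_slam hd hω hω' e).2.1]
  · intro ω ω' hω hω' e
    funext i
    exact congrFun (place_slam hd hω hω' e).2.2 i.succ
  · intro ω ω' _ _ e
    exact wt_eq (Prod.ext_iff.mp e).2
  · intro ω ω' _ _ e
    exact wt_eq (Prod.ext_iff.mp (Prod.ext_iff.mp e).2).1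
  · intro ω ω' _ _ e
    have h1 : sdg X S ω = sdg X S ω' := (Prod.ext_iff.mp (Prod.ext_iff.mp e).2).2
    funext i
    unfold srd
    rw [h1]
  · intro ω ω' hω hω' e
    have h1 := Prod.ext_iff.mp e
    have h2 : Fam.pt F ω = Fam.pt F ω' := h1.2
    have h3 : M ω = M ω' := (blb_ext h1.1).2.1
    have h4 : S ω = S ω' := hd.dS ω ω' hω hω' (Prod.ext h2 h3)
    have h5 : F.T ω = F.T ω' := (Prod.ext_iff.mp (Prod.ext_iff.mp h2).2).1
    refine Prod.ext h5 ?_
    funext i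
    show ⌊(2 : ℝ) ^ X * S ω i⌋ = ⌊(2 : ℝ) ^ X * S ω' i⌋
    rw [h4]
  · intro ω ω' _ _ e
    exact (Prod.ext_iff.mp e).1
  · intro ω _
    exact Box.md_mem F c M ω 0
  · intro ω _
    exact Lab.wt_mem F w ω
  · intro ω hω i
    have := srd_le hd hω i
    nlinarith
  · intro ω _
    exact pb ω 0
  · intro ω _ i
    exact pb ω i.succ
  · refine ⟨fun _ => 0, fun _ _ _ _ _ => rfl, fun ω _ => ?_⟩
    show F.mx w c M ω 0 = _
    unfold Fam.mx bom
    ring
  · refine ⟨fun _ _ => 0, fun _ _ _ _ _ => rfl, fun ω _ i => ?_⟩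
    show F.mx w c M ω i.succ = _
    unfold Fam.mx bbe
    ring
  · refine ⟨fun ω => 2 ^ (c 0 + w) * mco (M ω) (xJ (Fam.pt F ω)) 0 - F.mkn w c M ω 0,
      fun ω i => 2 ^ (c i.succ + w) * mco (M ω) (xJ (Fam.pt F ω)) i.succ -
        F.mkn w c M ω i.succ,
      fun ω i => W ω i + S ω i * F.mvl c M ω 0 - F.mvl c M ω i.succ, ?_, ?_⟩
    · intro ω ω' hω hω' e
      have h1 := Prod.ext_iff.mp e
      have h2 : Fam.pt F ω = Fam.pt F ω' := h1.1
      have h0 : F.blb w c M ω = F.blb w c M ω' := h1.2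
      obtain ⟨g1, g2, g3, g4⟩ := blb_ext h0
      have h4 : S ω = S ω' := hd.dS ω ω' hω hω' (Prod.ext h2 g2)
      have h5 : W ω = W ω' := hd.dW ω ω' hω hω' (Prod.ext h2 g2)
      have h6 : F.T ω = F.T ω' := (Prod.ext_iff.mp (Prod.ext_iff.mp h2).2).1
      have h7 := Box.mkn_det (F := F) (w := w) (c := c) (M := M) h0 h6
      simp only
      rw [h2, g2, g3, h4, h5, h7]
    · intro ω hω
      refine ⟨?_, fun i => ?_, fun i => ?_⟩
      · have h1 := pos_near hd hω 0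
        have e1 : F.mx w c M ω 0 = F.mu w (fun i => c i + w) M ω 0 +
          F.wt w ω * bom F c M ω := rfl
        rw [e1] at h1
        simp only
        linarith
      · have h1 := pos_near hd hω i.succ
        have e1 : F.mx w c M ω i.succ = F.mu w (fun i => c i + w) M ω i.succ +
          F.wt w ω * bbe F c M ω i := rfl
        rw [e1] at h1
        simp only
        linarith
      · have h1 := vel_near hd hω i
        have e1 : F.md c M ω i.succ = bbe F c M ω i := rfl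
        have e2 : F.md c M ω 0 = bom F c M ω := rfl
        rw [e1, e2] at h1
        simp only
        nlinarith

end dict

end Pool.DPA
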