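import Pool.Agent.H45.DPA.Gen

/-!
# Plateaus in one family, any number of coordinates: the telescopes
-/

set_option autoImplicit false

namespace Pool.DPA

open Finset Real
open Pool.Agent.H49.Ent Pool.Agent.H32.Dense Pool.STK Pool.KA Pool.KSAT Pool.K2S Pool.S6U
open Pool.PLV Pool.DPL Pool.S6B20

variable {c' J : ℕ}

section tel

variable {F : Fam (c' + 1) J} {Q : F.Ω → ℝ} {M : F.Ω → Fin (c' + 1) → Fin (c' + 1) → ℝ}
  {S : F.Ω → Fin c' → ℝ} {B : ℝ}

/-- The information of the block of the position on the velocity. -/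
noncomputable def cst2 (F : Fam (c' + 1) J) (Q : F.Ω → ℝ) (w X : ℕ) (c : Fin (c' + 1) → ℕ)
    (M : F.Ω → Fin (c' + 1) → Fin (c' + 1) → ℝ) : ℝ :=
  Pool.KVA.MI Q (blk X (by1 F w c M) (bz F w c M))
    (fun ω => (vbl X (bom F c M) (bbe F c M) ω, ())) (fun ω => (F.blb w c M ω, F.T ω))

/-- The information of the block of the position on the reference. -/
noncomputable def cst3 (F : Fam (c' + 1) J) (Q : F.Ω → ℝ) (w X : ℕ) (c : Fin (c' + 1) → ℕ)
    (M : F.Ω → Fin (c' + 1) → Fin (c' + 1) → ℝ) (S : F.Ω → Fin c' → ℝ) : ℝ :=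
  Pool.KVA.MI (dbl Q (slam F w)) (fun x => blk X (by1 F w c M) (bz F w c M) x.1)
    (fun x => (F.T x.2, sdg X S x.2))
    (fun x => ((vbl X (bom F c M) (bbe F c M) x.1, ()), (F.blb w c M x.1, F.T x.1)))

theorem MI_nonneg' {Ω S T U : Type} [Fintype Ω] {p : Ω → ℝ} (hp : ∀ ω, 0 ≤ p ω) (N : Ω → S)
    (V : Ω → T) (b : Ω → U) : 0 ≤ Pool.KVA.MI p N V b := by
  rw [MI_eq_dp hp]
  exact dp_nonneg hp N V b

/-- **(B0)** -/
theorem sum2 (hQ : IsLaw Q) {N X : ℕ} {w : ℕ → ℕ} {c : Fin (c' + 1) → ℕ}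
    (hws : ∀ j, j + 1 < N → w j + X ≤ w (j + 1)) (hJ : ∀ j, j < N → w j ≤ J) :
    ∑ j ∈ range N, cst2 F Q (w j) X c M ≤ (c' + 1) * (X * Real.log 2 + Real.log 3) +
      N * ((c' + 1) * Real.log 7 + 2 * ((c' + 1) * Real.log (4 * (c' + 1) + 3))) := by
  have h0 := hQ.nonneg
  have key := h2_tel (M := M) (c := c) hQ N w hws hJ
    (fun ω => (vbl X (bom F c M) (bbe F c M) ω, ()))
  refine key.trans ?_
  have h1 : CH Q (fun ω => (vbl X (bom F c M) (bbe F c M) ω, ()))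
      (fun ω => (F.blb (w 0) c M ω, F.T ω)) ≤ (c' + 1) * (X * Real.log 2 + Real.log 3) := by
    refine (CH_mono_left h0 (X' := vbl X (bom F c M) (bbe F c M)) (fun ω ω' _ _ h => ?_)).trans ?_
    · exact Prod.ext (Prod.ext_iff.mp h).1 rfl
    · refine (CH_vbl hQ _).trans ?_
      have e : (X : ℝ) * Real.log 2 + Real.log 3 = Real.log (2 ^ X * 3) := by
        rw [Real.log_mul (by positivity) (by positivity), Real.log_pow]
      rw [e]
      push_cast
      refine mul_le_mul_of_nonneg_left (Real.log_le_log (by positivity) ?_) (by positivity)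
      have hX : (1 : ℝ) ≤ 2 ^ X := one_le_pow₀ (by norm_num)
      linarith
  push_cast
  linarith

/-- The digits of the own slope. -/
theorem CH_sdg {Ω' T : Type} [Fintype Ω'] {q : Ω' → ℝ} (hq : IsLaw q) (f : Ω' → F.Ω) (X : ℕ)
    (hS : ∀ x, 0 < q x → ∀ i, |S (f x) i| ≤ B) (hB : 0 ≤ B) (W : Ω' → T) :
    CH q (fun x => sdg X S (f x)) W ≤ c' * (X * Real.log 2 + Real.log (4 * B + 3)) := by
  have h1 := Plk.CH_vec_const hq (fun x => sdg X S (f x)) W (c := 2 * B * 2 ^ X + 1)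
    (fun x x' hx hx' _ i => by
      refine Plk.floor_sub_lt (c := 2 * B * 2 ^ X) ?_
      have a1 := hS x hx i
      have a2 := hS x' hx' i
      have e : (2 : ℝ) ^ X * S (f x) i - 2 ^ X * S (f x') i =
        2 ^ X * (S (f x) i - S (f x') i) := by ring
      rw [e, abs_mul, abs_of_pos (by positivity : (0 : ℝ) < 2 ^ X)]
      have a3 := abs_sub (S (f x) i) (S (f x') i)
      have a4 : |S (f x) i - S (f x') i| ≤ 2 * B := by linarith
      have : (2 : ℝ) ^ X * |S (f x) i - S (f x') i| ≤ 2 ^ X * (2 * B) :=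
        mul_le_mul_of_nonneg_left a4 (by positivity)
      linarith)
  refine h1.trans ?_
  refine mul_le_mul_of_nonneg_left ?_ (Nat.cast_nonneg c')
  have e : (X : ℝ) * Real.log 2 + Real.log (4 * B + 3) = Real.log (2 ^ X * (4 * B + 3)) := by
    rw [Real.log_mul (by positivity) (by linarith), Real.log_pow]
  rw [e]
  refine Real.log_le_log (by positivity) ?_
  have hX : (1 : ℝ) ≤ 2 ^ X := one_le_pow₀ (by norm_num)
  nlinarith

/-- **(M)** -/
theorem sum3 (hQ : IsLaw Q) {L X w : ℕ} (hw : w ≤ J) {c : Fin (c' + 1) → ℕ} {e : ℝ}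
    (hT : (J : ℝ) * Real.log 2 - e ≤ CH Q F.T (fun ω => (F.l ω, F.Z ω)))
    (hS : ∀ ω, 0 < Q ω → ∀ i, |S ω i| ≤ B) (hB : 0 ≤ B) :
    ∑ k ∈ range L, cst3 F Q w X (fun i => c i + k * X) M S ≤
      L * (e + (c' + 1) * Real.log 7) + c' * (X * Real.log 2 + Real.log (4 * B + 3)) := by
  have h0 := hQ.nonneg
  have hq : IsLaw (dbl Q (slam F w)) := Pool.OC.isLaw_dbl hQ _
  have hq0 := hq.nonneg
  have q1 : ∀ x : F.Ω × F.Ω, 0 < dbl Q (slam F w) x → 0 < Q x.1 := fun x => dbl_pos1 h0 _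
  have q2 : ∀ x : F.Ω × F.Ω, 0 < dbl Q (slam F w) x → 0 < Q x.2 := fun x hx => by
    have hx' : 0 < dbl Q (slam F w) (x.2, x.1) := by rw [← dbl_swap]; exact hx
    exact dbl_pos1 h0 _ hx'
  have key := q_tel_ext (F := F) (M := M) (w := w) (X := X) hq
    (fun x : F.Ω × F.Ω => x.1) L (fun k i => c i + k * X)
    (fun k _ i => by
      have e : c i + (k + 1) * X = c i + k * X + X := by ring
      exact e.ge)
    (fun _ x => F.T x.2) (fun _ _ _ _ _ h => h)
    (fun x => sdg X S x.2)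
  have a1 := CH_sdg hq (fun x : F.Ω × F.Ω => x.2) X (fun x hx => hS x.2 (q2 x hx)) hB
    (fun x => (F.blb w (fun i => c i + 0 * X) M x.1, (F.T x.2, F.T x.1)))
  have a2 : ∀ k ∈ range L, cst3 F Q w X (fun i => c i + k * X) M S ≤
      dp (dbl Q (slam F w)) (fun x => sdg X S x.2)
        (fun x => (dgd F (fun i => c i + k * X) M X x.1, dgx F w (fun i => c i + k * X) M X x.1))
        (fun x => (F.blb w (fun i => c i + k * X) M x.1, (F.T x.2, F.T x.1))) + e := by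
    intro k _
    unfold cst3
    obtain ⟨ck, hck⟩ : ∃ ck : Fin (c' + 1) → ℕ, ck = fun i => c i + k * X := ⟨_, rfl⟩
    rw [← hck]
    obtain ⟨N, hN⟩ : ∃ N : F.Ω → ℤ × (Fin c' → ℤ), N = blk X (by1 F w ck M) (bz F w ck M) :=
      ⟨_, rfl⟩
    obtain ⟨v, hv⟩ : ∃ v : F.Ω → ℤ × (Fin c' → ℤ), v = vbl X (bom F ck M) (bbe F ck M) :=
      ⟨_, rfl⟩
    have hN' : ∀ ω ω', dgx F w ck M X ω = dgx F w ck M X ω' → N ω = N ω' := by
      intro ω ω' h
      rw [hN]
      exact blk_of_dgx h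
    have hv' : ∀ ω ω', dgd F ck M X ω = dgd F ck M X ω' → v ω = v ω' := by
      intro ω ω' h
      rw [hv]
      exact vbl_of_dgd h
    rw [← hN, ← hv, MI_eq_dp hq0, dp_symm hq0]
    have b1 : dp (dbl Q (slam F w)) (fun x => (F.T x.2, sdg X S x.2)) (fun x => N x.1)
        (fun x => ((v x.1, ()), (F.blb w ck M x.1, F.T x.1))) ≤
        dp (dbl Q (slam F w)) (fun x => (sdg X S x.2, F.T x.2)) (fun x => N x.1)
        (fun x => ((v x.1, ()), (F.blb w ck M x.1, F.T x.1))) := by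
      refine dp_mono hq0 (fun x y _ _ h => ?_) (fun _ _ _ _ h => (Prod.ext_iff.mp h).1)
      have := Prod.ext_iff.mp (Prod.ext_iff.mp h).1
      exact Prod.ext this.2 this.1
    have b2 := dp_add hq0 (fun x : F.Ω × F.Ω => sdg X S x.2) (fun x => F.T x.2) (fun x => N x.1)
      (fun x => ((v x.1, ()), (F.blb w ck M x.1, F.T x.1)))
    have b3 := time_dbl hQ hw hT N (fun ω => ((v ω, ()), (F.blb w ck M ω, F.T ω)))
      (fun ω ω' _ _ h => (Box.mlb_ext (Prod.ext_iff.mp (Prod.ext_iff.mp h).2).1).1)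
    have b4 : dp (dbl Q (slam F w)) (fun x => sdg X S x.2) (fun x => N x.1)
        (fun x => (F.T x.2, ((v x.1, ()), (F.blb w ck M x.1, F.T x.1)))) =
        dp (dbl Q (slam F w)) (fun x => sdg X S x.2) (fun x => N x.1)
        (fun x => (v x.1, (F.blb w ck M x.1, (F.T x.2, F.T x.1)))) := by
      refine dp_congr_cond hq0 ?_ ?_ <;>
      · intro x y _ _ h
        simp only [Prod.mk.injEq] at h ⊢
        tauto
    have b5 := dp_add_right hq0 (fun x : F.Ω × F.Ω => sdg X S x.2) (fun x => N x.1)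
      (fun x => v x.1) (fun x => (F.blb w ck M x.1, (F.T x.2, F.T x.1)))
    have b6 := dp_nonneg hq0 (fun x : F.Ω × F.Ω => sdg X S x.2) (fun x => v x.1)
      (fun x => (F.blb w ck M x.1, (F.T x.2, F.T x.1)))
    have b8 : dp (dbl Q (slam F w)) (fun x => sdg X S x.2) (fun x => (N x.1, v x.1))
        (fun x => (F.blb w ck M x.1, (F.T x.2, F.T x.1))) ≤
        dp (dbl Q (slam F w)) (fun x => sdg X S x.2)
        (fun x => (dgd F ck M X x.1, dgx F w ck M X x.1))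
        (fun x => (F.blb w ck M x.1, (F.T x.2, F.T x.1))) := by
      refine dp_mono hq0 (fun _ _ _ _ h => (Prod.ext_iff.mp h).1) (fun x y _ _ h => ?_)
      have c1 := Prod.ext_iff.mp (Prod.ext_iff.mp h).1
      exact Prod.ext (hN' _ _ c1.2) (hv' _ _ c1.1)
    linarith
  have a3 := Finset.sum_le_sum a2
  rw [Finset.sum_add_distrib, Finset.sum_const, card_range, nsmul_eq_mul] at a3
  push_cast at key
  linarith

end tel

section hyp

variable {F : Fam (c' + 1) J} {Q : F.Ω → ℝ} {w X : ℕ} {c : Fin (c' + 1) → ℕ}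
  {M : F.Ω → Fin (c' + 1) → Fin (c' + 1) → ℝ} {S W : F.Ω → Fin c' → ℝ} {B : ℝ}

/-- **(h1)** -/
theorem hyp1 (hd : GDat F Q w X c M S W B) {e : ℝ}
    (hT : (J : ℝ) * Real.log 2 - e ≤ CH Q F.T (fun ω => (F.l ω, F.Z ω))) :
    Pool.KVA.MI Q F.T (slam F w) (F.blb w c M) ≤ e := by
  have h0 := hd.law.nonneg
  rw [MI_eq_dp h0]
  unfold dp
  have h1 := Pool.S6N.time_lab F hd.law hd.wJ (F.T1 w) (slam F w) (fun ω ω' h =>
    ⟨(Prod.ext_iff.mp (Prod.ext_iff.mp h).2).2, h⟩) (fun ω ω' h => h) hT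
  have h2 : CH Q F.T (F.blb w c M) ≤ CH Q F.T (F.T1 w) :=
    CH_mono_cond h0 fun ω ω' _ _ h => (blb_ext h).1
  have h3 : CH Q F.T (fun ω => (slam F w ω, F.T1 w ω)) ≤
      CH Q F.T (fun ω => (slam F w ω, F.blb w c M ω)) := by
    refine CH_mono_cond h0 fun ω ω' hω hω' h => ?_
    have e1 : slam F w ω = slam F w ω' := (Prod.ext_iff.mp h).1
    exact Prod.ext e1 (place_slam hd hω hω' e1).1
  linarith

/-- **(h1')** -/
theorem hyp1' (hd : GDat F Q w X c M S W B) {e : ℝ}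
    (hT : (J : ℝ) * Real.log 2 - e ≤ CH Q F.T (fun ω => (F.l ω, F.Z ω))) :
    X * Real.log 2 - e ≤ CH Q (Uni.dg X (F.wt w)) (slam F w) :=
  Pool.S6N.time_dig F hd.law hd.wJ (slam F w) (fun _ _ h => h) hT
    (by have := hd.lev 0; omega)

end hyp

end Pool.DPA
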