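import Pool.Agent.H45.DPA.Gen2

/-!
# Plateaus in one family, any number of coordinates

If the own slopes of a typical line are not in a strip, the position is full.
-/

set_option autoImplicit false

namespace Pool.DPA

open Finset Real
open Pool.Agent.H49.Ent Pool.Agent.H32.Dense Pool.STK Pool.KA Pool.KSAT Pool.K2S Pool.S6U
open Pool.PLV Pool.DPL Pool.S6B20

variable {c' J : ℕ}

/-- The digits of the velocity in the first coordinate. -/
noncomputable def vd (F : Fam (c' + 1) J) (M : F.Ω → Fin (c' + 1) → Fin (c' + 1) → ℝ) (n : ℕ)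
    (ω : F.Ω) : ℤ := ⌊(2 : ℝ) ^ n * mco (M ω) (F.d ω) 0⌋

section hyp

variable {F : Fam (c' + 1) J} {Q : F.Ω → ℝ} {w X : ℕ} {c : Fin (c' + 1) → ℕ}
  {M : F.Ω → Fin (c' + 1) → Fin (c' + 1) → ℝ} {S W : F.Ω → Fin c' → ℝ} {B : ℝ}

theorem vd_md (n : ℕ) (ω : F.Ω) : vd F M (c 0 + n) ω =
    ⌊(2 : ℝ) ^ n * F.md c M ω 0⌋ + 2 ^ n * F.mvl c M ω 0 := by
  have h1 := Box.fl_md F c M n ω 0
  have h2 : F.mvl (fun i => c i + n) M ω 0 = vd F M (c 0 + n) ω := rfl
  rw [h1, h2]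
  ring

theorem vd_coarse {n n' : ℕ} (h : n ≤ n') {ω ω' : F.Ω} (e : vd F M n' ω = vd F M n' ω') :
    vd F M n ω = vd F M n ω' := Vd.fl_lift h e

/-- **(h4)** -/
theorem hyp4 (hQ : IsLaw Q) {n X' : ℕ} {A : F.Ω → Prop} {ϖ v b0 : ℝ} (hϖ : 0 < ϖ)
    (hA : ϖ ≤ Pe Q A)
    (hact : b0 ≤ CH (Pool.Agent.H49.Ent.cond Q A True) (vd F M (c 0 + (n + X')))
      (fun ω => (vd F M (c 0 + n) ω, Fam.pt F ω)))
    (hvis : CH Q (F.blb w c M) (fun ω => (vd F M (c 0) ω, Fam.pt F ω)) ≤ v) :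
    b0 - v / ϖ ≤ CH (Pool.Agent.H49.Ent.cond Q A True) (Uni.dg (n + X') (bom F c M))
      (fun ω => (Uni.dg n (bom F c M) ω, (Fam.pt F ω, F.blb w c M ω))) := by
  have hA0 : 0 < Pe Q A := lt_of_lt_of_le hϖ hA
  have hc := isLaw_cond hQ hA0
  have c0 := hc.nonneg
  have k2 : CH (Pool.Agent.H49.Ent.cond Q A True) (F.blb w c M)
      (fun ω => (vd F M (c 0 + n) ω, Fam.pt F ω)) ≤ v / ϖ := by
    have a1 : CH (Pool.Agent.H49.Ent.cond Q A True) (F.blb w c M)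
        (fun ω => (vd F M (c 0 + n) ω, Fam.pt F ω)) ≤
        CH (Pool.Agent.H49.Ent.cond Q A True) (F.blb w c M)
        (fun ω => (vd F M (c 0) ω, Fam.pt F ω)) := by
      refine CH_mono_cond c0 fun ω ω' _ _ h => ?_
      have h1 := Prod.ext_iff.mp h
      exact Prod.ext (vd_coarse (Nat.le_add_right _ _) h1.1) h1.2
    have a2 := Pool.RPL.CH_ev_le hQ.nonneg (F.blb w c M)
      (fun ω => (vd F M (c 0) ω, Fam.pt F ω)) A
    have a3 := CH_nonneg c0 (F.blb w c M) (fun ω => (vd F M (c 0) ω, Fam.pt F ω))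
    have a4 : ϖ * CH (Pool.Agent.H49.Ent.cond Q A True) (F.blb w c M)
        (fun ω => (vd F M (c 0) ω, Fam.pt F ω)) ≤ v :=
      ((mul_le_mul_of_nonneg_right hA a3).trans a2).trans hvis
    refine a1.trans ?_
    rw [le_div_iff₀ hϖ, mul_comm]
    exact a4
  have k3 := CH_le_add c0 (vd F M (c 0 + (n + X'))) (F.blb w c M)
    (fun ω => (vd F M (c 0 + n) ω, Fam.pt F ω))
  have k4 : CH (Pool.Agent.H49.Ent.cond Q A True) (vd F M (c 0 + (n + X')))
      (fun ω => (F.blb w c M ω, (vd F M (c 0 + n) ω, Fam.pt F ω))) ≤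
      CH (Pool.Agent.H49.Ent.cond Q A True) (Uni.dg (n + X') (bom F c M))
      (fun ω => (Uni.dg n (bom F c M) ω, (Fam.pt F ω, F.blb w c M ω))) := by
    have e0 : ∀ (n : ℕ) (ω : F.Ω), Uni.dg n (bom F c M) ω =
        vd F M (c 0 + n) ω - 2 ^ n * F.mvl c M ω 0 := by
      intro n ω
      rw [vd_md]
      show ⌊(2 : ℝ) ^ n * F.md c M ω 0⌋ = _
      ring
    refine (CH_mono_left c0 (X' := Uni.dg (n + X') (bom F c M))
      fun ω ω' _ _ h => ?_).trans (CH_mono_cond c0 fun ω ω' _ _ h => ?_)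
    · have h1 := Prod.ext_iff.mp h
      have h2 : Uni.dg (n + X') (bom F c M) ω = Uni.dg (n + X') (bom F c M) ω' := h1.1
      have h3 : F.blb w c M ω = F.blb w c M ω' := (Prod.ext_iff.mp h1.2).1
      rw [e0, e0, (blb_ext h3).2.2.1] at h2
      linarith only [h2]
    · have h1 := Prod.ext_iff.mp h
      have h2 := Prod.ext_iff.mp h1.2
      have h3 : F.blb w c M ω = F.blb w c M ω' := h1.1
      have h4 : vd F M (c 0 + n) ω = vd F M (c 0 + n) ω' := h2.1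
      refine Prod.ext ?_ (Prod.ext h2.2 h3)
      show Uni.dg n (bom F c M) ω = Uni.dg n (bom F c M) ω'
      rw [e0, e0, (blb_ext h3).2.2.1, h4]
  linarith only [hact, k2, k3, k4]

end hyp

theorem Pe_mono' {Ω : Type} [Fintype Ω] {p : Ω → ℝ} (hp : ∀ ω, 0 ≤ p ω) {A B : Ω → Prop}
    (h : ∀ ω, 0 < p ω → A ω → B ω) : Pe p A ≤ Pe p B := by
  classical
  rw [Pe_eq, Pe_eq]
  refine Finset.sum_le_sum fun ω _ => ?_
  by_cases hA : A ω
  · rcases (hp ω).eq_or_lt with h0 | h0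
    · rw [← h0]
      simp
    · rw [if_pos hA, if_pos (h ω h0 hA)]
  · rw [if_neg hA]
    split_ifs
    · exact hp ω
    · exact le_rfl

/-- The strips of the rounded slopes. -/
theorem nstr_srd {Ω Λ : Type} [Fintype Ω] {p : Ω → ℝ} (hp : IsLaw p) (sl : Ω → Λ)
    (S : Ω → Fin c' → ℝ) {X : ℕ} {x₀ x₀' ε : ℝ} (hx : 2 * x₀ ≤ x₀') (hx1 : 2 * x₀ ≤ 1)
    (hX : (c' : ℝ) + 1 ≤ (2 : ℝ) ^ (x₀ * X)) (h : NStr p sl S ((2 : ℝ) ^ (-(x₀ * X))) ε) :
    NStr p sl (srd X S) ((2 : ℝ) ^ (-(x₀' * X))) ε := by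
  have hXr : (0 : ℝ) ≤ X := Nat.cast_nonneg X
  have e1 : (2 : ℝ) ^ (-(x₀' * X)) ≤ (2 : ℝ) ^ (-(2 * (x₀ * X))) :=
    Real.rpow_le_rpow_of_exponent_le (by norm_num) (by nlinarith only [hx])
  have e2 : 1 / (2 : ℝ) ^ X ≤ (2 : ℝ) ^ (-(2 * (x₀ * X))) := by
    rw [one_div, ← Real.rpow_natCast, ← Real.rpow_neg (by norm_num)]
    exact Real.rpow_le_rpow_of_exponent_le (by norm_num) (by nlinarith only [hx1])
  have e3 : (2 : ℝ) ^ (-(2 * (x₀ * X))) * (2 : ℝ) ^ (x₀ * X) = (2 : ℝ) ^ (-(x₀ * X)) := by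
    rw [← Real.rpow_add (by norm_num)]
    congr 1
    ring
  have hpz : (0 : ℝ) < (2 : ℝ) ^ (-(2 * (x₀ * X))) := by positivity
  have e4 : ((c' : ℝ) + 1) * (2 : ℝ) ^ (-(2 * (x₀ * X))) ≤ (2 : ℝ) ^ (-(x₀ * X)) := by
    rw [← e3, mul_comm]
    exact mul_le_mul_of_nonneg_left hX hpz.le
  refine le_trans ?_ h
  refine Pe_mono' hp.nonneg fun ω _ hω => ?_
  obtain ⟨n, n1, n2, n3⟩ := hω
  refine ⟨n, n1, n2, lt_of_lt_of_le n3 ?_⟩
  refine Pe_mono' (cond_nonneg hp.nonneg _ _) fun ρ _ hρ => ?_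
  have k1 : ∀ i, |srd X S ρ i - S ρ i| ≤ 1 / 2 ^ X := fun i => Pool.RPL.fl_near (S ρ i) X
  have k2 : n 0 + ∑ i : Fin c', n i.succ * S ρ i = (n 0 + ∑ i : Fin c', n i.succ * srd X S ρ i) -
      ∑ i : Fin c', n i.succ * (srd X S ρ i - S ρ i) := by
    have : ∑ i : Fin c', n i.succ * (srd X S ρ i - S ρ i) =
        ∑ i : Fin c', n i.succ * srd X S ρ i - ∑ i : Fin c', n i.succ * S ρ i := by
      rw [← Finset.sum_sub_distrib]
      exact Finset.sum_congr rfl fun i _ => by ring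
    rw [this]
    ring
  have k3 : |∑ i : Fin c', n i.succ * (srd X S ρ i - S ρ i)| ≤ c' * (1 / 2 ^ X) := by
    refine (Finset.abs_sum_le_sum_abs _ _).trans ?_
    have : ∀ i ∈ (univ : Finset (Fin c')), |n i.succ * (srd X S ρ i - S ρ i)| ≤ 1 / 2 ^ X := by
      intro i _
      rw [abs_mul]
      calc |n i.succ| * |srd X S ρ i - S ρ i| ≤ 1 * (1 / 2 ^ X) :=
            mul_le_mul (n1 _) (k1 i) (abs_nonneg _) zero_le_one
        _ = 1 / 2 ^ X := one_mul _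
    refine (Finset.sum_le_sum this).trans (le_of_eq ?_)
    rw [Finset.sum_const, card_univ, Fintype.card_fin, nsmul_eq_mul]
  have k4 : (c' : ℝ) * (1 / 2 ^ X) ≤ c' * (2 : ℝ) ^ (-(2 * (x₀ * X))) :=
    mul_le_mul_of_nonneg_left e2 (Nat.cast_nonneg c')
  rw [k2]
  have k5 := abs_sub (n 0 + ∑ i : Fin c', n i.succ * srd X S ρ i)
    (∑ i : Fin c', n i.succ * (srd X S ρ i - S ρ i))
  have hρ' : |n 0 + ∑ i : Fin c', n i.succ * srd X S ρ i| < (2 : ℝ) ^ (-(x₀' * X)) := hρ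
  nlinarith only [e1, e4, hρ, k3, k4, k5]

/-- The data of one family. -/
structure GIn (F : Fam (c' + 1) J) (Q : F.Ω → ℝ) (N L X : ℕ) (w : ℕ → ℕ)
    (c : Fin (c' + 1) → ℕ) (M : F.Ω → Fin (c' + 1) → Fin (c' + 1) → ℝ)
    (S W : F.Ω → Fin c' → ℝ) (B c₀ ca x₀ lm κ ϖ : ℝ) : Prop where
  law : IsLaw Q
  step : ∀ j, j + 1 < N → w j + X ≤ w (j + 1)
  lev : ∀ j < N, ∀ k < L, ∀ i, c i + k * X + w j + X ≤ J
  time : (J : ℝ) * Real.log 2 - lm * X ≤ CH Q F.T (fun ω => (F.l ω, F.Z ω))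
  det : Det Q (slam F (w 0)) M
  bd : ∀ ω, 0 < Q ω → ∀ i j, |M ω i j| ≤ B
  dS : Det Q (fun ω => (Fam.pt F ω, M ω)) S
  dW : Det Q (fun ω => (Fam.pt F ω, M ω)) W
  Sb : ∀ ω, 0 < Q ω → ∀ i, |S ω i| ≤ B
  str : ∀ ω, 0 < Q ω → ∀ i : Fin c', |2 ^ c i.succ * mco (M ω) (F.d ω) i.succ -
    S ω i * (2 ^ c 0 * mco (M ω) (F.d ω) 0) - W ω i| ≤ B / 2 ^ (L * X)
  vis : ∀ j < N, ∀ k < L, CH Q (F.blb (w j) (fun i => c i + k * X) M)
    (fun ω => (vd F M (c 0 + k * X) ω, Fam.pt F ω)) ≤ lm * X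
  act : ∀ k < L, ∀ n X' : ℕ, κ * X ≤ X' → n + X' ≤ X → ∀ A : F.Ω → Prop, ϖ ≤ Pe Q A →
    ca * X' * Real.log 2 ≤ CH (Pool.Agent.H49.Ent.cond Q A True)
      (vd F M (c 0 + k * X + (n + X'))) (fun ω => (vd F M (c 0 + k * X + n) ω, Fam.pt F ω))
  h5 : ∀ j < N, ∀ k < L, DPH5 c' Q (F.blb (w j) (fun i => c i + k * X) M) F.T
    (by1 F (w j) (fun i => c i + k * X) M) (bz F (w j) (fun i => c i + k * X) M) X ϖ c₀
  nstr : ∀ j < N, NStr Q (slam F (w j)) S ((2 : ℝ) ^ (-(x₀ * X))) (1 / 4)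

theorem slam_of {m : ℕ} {F : Fam m J} {w w' : ℕ} (h : w ≤ w') (h' : w' ≤ J) {ω ω' : F.Ω}
    (e : slam F w' ω = slam F w' ω') : slam F w ω = slam F w ω' := by
  have h1 := Prod.ext_iff.mp e
  have h2 := Prod.ext_iff.mp h1.2
  have h3 : F.T1 w' ω = F.T1 w' ω' := h2.2
  have key : ∀ v : F.Ω, F.T1 w v = F.T1 w' v / 2 ^ (w' - w) := by
    intro v
    unfold Fam.T1
    rw [Nat.div_div_eq_div_mul, ← pow_add]
    congr 2
    omega
  have h4 : F.T1 w ω = F.T1 w ω' := by rw [key, key, h3]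
  exact Prod.ext h1.1 (Prod.ext h2.1 h4)

/-- **Plateaus in one family.** -/
theorem plateau (c' : ℕ) (B c₀ ca : ℝ) (hB : 1 ≤ B) (hc₀ : 0 < c₀) (hca : 0 < ca) :
    ∃ (x₀ lm κ ϖ : ℝ) (X₀ N L : ℕ), 0 < x₀ ∧ 0 < lm ∧ 0 < κ ∧ κ ≤ 1 ∧ 0 < ϖ ∧ ϖ ≤ 1 ∧
      0 < N ∧ 0 < L ∧ ∀ (J : ℕ) (F : Fam (c' + 1) J) (Q : F.Ω → ℝ) (X : ℕ) (w : ℕ → ℕ)
      (c : Fin (c' + 1) → ℕ) (M : F.Ω → Fin (c' + 1) → Fin (c' + 1) → ℝ)
      (S W : F.Ω → Fin c' → ℝ), X₀ ≤ X →
      GIn F Q N L X w c M S W B c₀ ca x₀ lm κ ϖ → False := by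
  have hc' : (0 : ℝ) ≤ c' := Nat.cast_nonneg c'
  have hB0 : 0 ≤ B := by linarith only [hB]
  have hl2 : 0 < Real.log 2 := Real.log_pos (by norm_num)
  have hl2b : Real.log 2 < 0.6931471808 := Real.log_two_lt_d9
  have hl2a : 0.6931471803 < Real.log 2 := Real.log_two_gt_d9
  obtain ⟨x₀', η, ϖ, ι, n₀, hx₀', hη, hϖ, hι, hdp⟩ :=
    dp_str c' ((c' + 1) * B + 2) c₀ (ca / 2) (by positivity) hc₀ (by positivity)
  obtain ⟨x₀, hx₀⟩ : ∃ x₀ : ℝ, x₀ = min x₀' 1 / 2 := ⟨_, rfl⟩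
  have hx₀p : 0 < x₀ := by rw [hx₀]; have := lt_min hx₀' one_pos; positivity
  have hx₀a : 2 * x₀ ≤ x₀' := by rw [hx₀]; linarith only [min_le_left x₀' 1]
  have hx₀b : 2 * x₀ ≤ 1 := by rw [hx₀]; linarith only [min_le_right x₀' 1]
  obtain ⟨lm, hlm⟩ : ∃ lm : ℝ, lm = min (ι / 16) (ϖ * (ca / 2) * η * Real.log 2) := ⟨_, rfl⟩
  have hlmp : 0 < lm := by rw [hlm]; exact lt_min (by positivity) (by positivity)
  have hlma : lm ≤ ι / 16 := by rw [hlm]; exact min_le_left _ _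
  have hlmb : lm ≤ ϖ * (ca / 2) * η * Real.log 2 := by rw [hlm]; exact min_le_right _ _
  obtain ⟨C2, hC2⟩ : ∃ C2 : ℝ, C2 = (c' + 1) * Real.log 7 +
    2 * ((c' + 1) * Real.log (4 * (c' + 1) + 3)) := ⟨_, rfl⟩
  obtain ⟨C3, hC3⟩ : ∃ C3 : ℝ, C3 = (c' + 1) * Real.log 7 := ⟨_, rfl⟩
  have l7 : 0 < Real.log 7 := Real.log_pos (by norm_num)
  have l3 : 0 < Real.log 3 := Real.log_pos (by norm_num)
  have lB : 0 ≤ Real.log (4 * B + 3) := Real.log_nonneg (by linarith only [hB, hl2b, hl2a])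
  have lc : 0 ≤ Real.log (4 * (c' + 1) + 3) := Real.log_nonneg (by linarith only [hl2b, hl2a])
  have hC2p : 0 ≤ C2 := by rw [hC2]; positivity
  have hC3p : 0 ≤ C3 := by rw [hC3]; positivity
  obtain ⟨N, hN⟩ := exists_nat_gt (12 * ((c' : ℝ) + 1) / ι)
  have hNp : 0 < N := by
    have : (0 : ℝ) < N := lt_of_le_of_lt (by positivity) hN
    exact_mod_cast this
  obtain ⟨L, hL⟩ := exists_nat_gt (16 * (c' : ℝ) / ι)
  have hLp : 0 < L := by
    have : (0 : ℝ) < L := lt_of_le_of_lt (by positivity) hL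
    exact_mod_cast this
  obtain ⟨n₁, hn₁⟩ := exists_nat_gt (Real.logb 2 (c' + 1) / x₀)
  obtain ⟨n₂, hn₂⟩ := exists_nat_gt (16 * C3 / ι + 16 * c' * Real.log (4 * B + 3) / ι +
    12 * (c' + 1) * Real.log 3 / ι + 12 * C2 / ι)
  refine ⟨x₀, lm, min η 1, min ϖ 1, max n₀ (max n₁ n₂), N, L, hx₀p, hlmp,
    lt_min hη one_pos, min_le_right _ _, lt_min hϖ one_pos, min_le_right _ _, hNp, hLp, ?_⟩
  intro J F Q X w c M S W hX hG
  have h0 := hG.law.nonneg
  have hX0 : n₀ ≤ X := (le_max_left _ _).trans hX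
  have hX1 : (n₁ : ℝ) ≤ X := by exact_mod_cast (le_max_left n₁ n₂).trans ((le_max_right _ _).trans hX)
  have hX2 : (n₂ : ℝ) ≤ X := by
    exact_mod_cast (le_max_right n₁ n₂).trans ((le_max_right _ _).trans hX)
  have hXr : (0 : ℝ) ≤ X := Nat.cast_nonneg X
  have p1 : 0 ≤ 16 * C3 / ι := by positivity
  have p2 : 0 ≤ 16 * c' * Real.log (4 * B + 3) / ι := by positivity
  have p3 : 0 ≤ 12 * (c' + 1) * Real.log 3 / ι := by positivity
  have p4 : 0 ≤ 12 * C2 / ι := by positivity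
  have q1 : 16 * C3 ≤ ι * X := by
    have : 16 * C3 / ι ≤ X := by linarith only [hn₂, hX2, p2, p3, p4]
    rw [div_le_iff₀ hι] at this
    linarith only [this]
  have q2 : 16 * c' * Real.log (4 * B + 3) ≤ ι * X := by
    have : 16 * c' * Real.log (4 * B + 3) / ι ≤ X := by linarith only [hn₂, hX2, p1, p3, p4]
    rw [div_le_iff₀ hι] at this
    linarith only [this]
  have q3 : 12 * (c' + 1) * Real.log 3 ≤ ι * X := by
    have : 12 * (c' + 1) * Real.log 3 / ι ≤ X := by linarith only [hn₂, hX2, p1, p2, p4]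
    rw [div_le_iff₀ hι] at this
    linarith only [this]
  have q4 : 12 * C2 ≤ ι * X := by
    have : 12 * C2 / ι ≤ X := by linarith only [hn₂, hX2, p1, p2, p3]
    rw [div_le_iff₀ hι] at this
    linarith only [this]
  have q6 : (c' : ℝ) + 1 ≤ (2 : ℝ) ^ (x₀ * X) := by
    have h1 : Real.logb 2 (c' + 1) / x₀ ≤ X := by linarith only [hn₁, hX1]
    rw [div_le_iff₀ hx₀p] at h1
    have h2 : Real.logb 2 (c' + 1) ≤ x₀ * X := by linarith only [h1]
    rwa [Real.logb_le_iff_le_rpow (by norm_num) (by linarith only [hl2b, hl2a])] at h2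
  -- the windows
  have hw0 : ∀ j < N, w 0 ≤ w j := by
    intro j
    induction j with
    | zero => intro _; exact le_rfl
    | succ j ih =>
      intro hj
      have := hG.step j hj
      have := ih (by omega)
      omega
  have hwJ : ∀ j < N, w j ≤ J := by
    intro j hj
    have := hG.lev j hj 0 hLp 0
    omega
  -- the data
  have hdat : ∀ j < N, ∀ k < L, GDat F Q (w j) X (fun i => c i + k * X) M S
      (fun ω i => 2 ^ (k * X) * W ω i) B := by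
    intro j hj k hk
    refine ⟨hG.law, hwJ j hj, hG.lev j hj k hk, ?_, hG.bd, hG.dS, ?_, hG.Sb, ?_⟩
    · intro ω ω' hω hω' e
      exact hG.det ω ω' hω hω' (slam_of (hw0 j hj) (hwJ j hj) e)
    · intro ω ω' hω hω' e
      have h1 := hG.dW ω ω' hω hω' e
      show (fun i => (2 : ℝ) ^ (k * X) * W ω i) = fun i => (2 : ℝ) ^ (k * X) * W ω' i
      rw [h1]
    · intro ω hω i
      have h1 := hG.str ω hω i
      have e1 : (2 : ℝ) ^ (c i.succ + k * X) * mco (M ω) (F.d ω) i.succ -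
          S ω i * (2 ^ (c 0 + k * X) * mco (M ω) (F.d ω) 0) - 2 ^ (k * X) * W ω i =
          2 ^ (k * X) * (2 ^ c i.succ * mco (M ω) (F.d ω) i.succ -
            S ω i * (2 ^ c 0 * mco (M ω) (F.d ω) 0) - W ω i) := by
        rw [pow_add, pow_add]
        ring
      show |(2 : ℝ) ^ (c i.succ + k * X) * mco (M ω) (F.d ω) i.succ -
          S ω i * (2 ^ (c 0 + k * X) * mco (M ω) (F.d ω) 0) - 2 ^ (k * X) * W ω i| ≤ B / 2 ^ X
      rw [e1, abs_mul, abs_of_pos (by positivity : (0 : ℝ) < 2 ^ (k * X))]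
      refine (mul_le_mul_of_nonneg_left h1 (by positivity)).trans ?_
      have e2 : k * X + X ≤ L * X := by
        have : (k + 1) * X ≤ L * X := Nat.mul_le_mul_right X hk
        linarith only [this]
      have e3 : B / (2 : ℝ) ^ (L * X) ≤ B / 2 ^ (k * X + X) := Box.div_pow_mono hB0 e2
      calc (2 : ℝ) ^ (k * X) * (B / 2 ^ (L * X)) ≤ 2 ^ (k * X) * (B / 2 ^ (k * X + X)) :=
            mul_le_mul_of_nonneg_left e3 (by positivity)
        _ = B / 2 ^ X := by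
            rw [pow_add]
            field_simp
  -- the place
  obtain ⟨f, hf⟩ : ∃ f : ℕ → ℕ → ℝ, f = fun j k =>
    cst3 F Q (w j) X (fun i => c i + k * X) M S := ⟨_, rfl⟩
  obtain ⟨g, hg⟩ : ∃ g : ℕ → ℕ → ℝ, g = fun j k =>
    cst2 F Q (w j) X (fun i => c i + k * X) M := ⟨_, rfl⟩
  have hf0 : ∀ j < N, ∀ k < L, 0 ≤ f j k := by
    intro j _ k _
    rw [hf]
    exact MI_nonneg' (Pool.OC.isLaw_dbl hG.law _).nonneg _ _ _
  have hg0 : ∀ j < N, ∀ k < L, 0 ≤ g j k := by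
    intro j _ k _
    rw [hg]
    exact MI_nonneg' h0 _ _ _
  have hfs : ∀ j < N, ∑ k ∈ range L, f j k ≤ L * (lm * X + C3) +
      c' * (X * Real.log 2 + Real.log (4 * B + 3)) := by
    intro j hj
    rw [hf, hC3]
    exact sum3 hG.law (hwJ j hj) hG.time hG.Sb hB0
  have hgs : ∀ k < L, ∑ j ∈ range N, g j k ≤ (c' + 1) * (X * Real.log 2 + Real.log 3) +
      N * C2 := by
    intro k hk
    rw [hg, hC2]
    exact sum2 hG.law hG.step hwJ
  have hL1 : (1 : ℝ) ≤ L := by exact_mod_cast hLp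
  have hN1 : (1 : ℝ) ≤ N := by exact_mod_cast hNp
  have hιX : 0 ≤ ι * X := by positivity
  rcases Nat.eq_zero_or_pos X with hX00 | hXpos
  · exfalso
    rw [hX00] at q3
    have : 0 < 12 * ((c' : ℝ) + 1) * Real.log 3 := by positivity
    simp only [Nat.cast_zero, mul_zero] at q3
    linarith only [this, q3]
  have hXp : (0 : ℝ) < X := by exact_mod_cast hXpos
  have hιX' : 0 < ι * X := by positivity
  obtain ⟨j, hj, k, hk, hfj, hgj⟩ := Pool.S6N.exists_place hNp hLp f g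
    (A := L * (lm * X + C3) + c' * (X * Real.log 2 + Real.log (4 * B + 3)))
    (B := (c' + 1) * (X * Real.log 2 + Real.log 3) + N * C2)
    (ε := ι * X) hιX' hf0 hg0 hfs hgs
    (by
      have h1 : 16 * (c' : ℝ) / ι ≤ L := hL.le
      rw [div_le_iff₀ hι] at h1
      have a1 : L * (lm * X) * 4 ≤ ι * X * L / 4 := by
        have : lm * X ≤ ι / 16 * X := mul_le_mul_of_nonneg_right hlma hXr
        nlinarith only [this]
      have a2 : L * C3 * 4 ≤ ι * X * L / 4 := by nlinarith only [q1]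
      have a3 : c' * (X * Real.log 2) * 4 ≤ ι * X * L / 4 := by
        have b1 : (c' : ℝ) * (X * Real.log 2) ≤ c' * X := by
          have : (X : ℝ) * Real.log 2 ≤ X := by nlinarith only [hn₂, hX2, p1, p2, p3, p4, hl2b]
          exact mul_le_mul_of_nonneg_left this hc'
        have b2 : 16 * (c' : ℝ) * X ≤ L * ι * X := mul_le_mul_of_nonneg_right h1 hXr
        nlinarith only [b1, b2]
      have a4 : c' * Real.log (4 * B + 3) * 4 ≤ ι * X * L / 4 := by nlinarith only [q2, hl2b, hl2a, hC3p, hL1, q1]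
      linarith only [a1, a2, a3, a4])
    (by
      have h1 : 12 * ((c' : ℝ) + 1) / ι ≤ N := hN.le
      rw [div_le_iff₀ hι] at h1
      have a1 : (c' + 1) * (X * Real.log 2) * 4 ≤ ι * X * N / 3 := by
        have b1 : ((c' : ℝ) + 1) * (X * Real.log 2) ≤ (c' + 1) * X := by
          have : (X : ℝ) * Real.log 2 ≤ X := by nlinarith only [hn₂, hX2, p1, p2, p3, p4, hl2b]
          exact mul_le_mul_of_nonneg_left this (by positivity)
        have b2 : 12 * ((c' : ℝ) + 1) * X ≤ N * ι * X := mul_le_mul_of_nonneg_right h1 hXr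
        nlinarith only [b1, b2]
      have a2 : (c' + 1) * Real.log 3 * 4 ≤ ι * X * N / 3 := by nlinarith only [q3, hl2b, hl2a, hC3p, hN1, q1]
      have a3 : N * C2 * 4 ≤ ι * X * N / 3 := by nlinarith only [q4]
      linarith only [a1, a2, a3])
  rw [hf] at hfj
  rw [hg] at hgj
  simp only at hfj hgj
  have hd := hdat j hj k hk
  have hdp' := dpdata hd hB
  have lmX : lm * X ≤ ι / 16 * X := mul_le_mul_of_nonneg_right hlma hXr
  refine hdp F.Ω _ _ _ _ _ _ _ Q (F.blb (w j) (fun i => c i + k * X) M)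
    (F.blb (w j) (fun i => c i + k * X) M) (fun _ => ()) (slam F (w j)) F.T
    (fun ω => (F.T ω, sdg X S ω)) (Fam.pt F) _ _ _ _ _ _ _ _ X hdp' hX0 ?_ ?_ ?_
  · refine ⟨?_, ?_, hgj, hfj, ?_, ?_⟩
    · refine (hyp1 hd hG.time).trans ?_
      linarith only [hιX', lmX]
    · refine le_trans ?_ (hyp1' hd hG.time)
      have h2 : ι / 16 * X ≤ ι * X * Real.log 2 := by nlinarith only [hC3, l7, hl2, q1, hl2b, hl2a, hC3p]
      have e1 : (1 - ι) * X * Real.log 2 = X * Real.log 2 - ι * X * Real.log 2 := by ring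
      rw [e1]
      linarith only [lmX, h2]
    · intro n X' hX'1 hX'2 A' hA'
      have h1 := hyp4 (F := F) (w := w j) (c := fun i => c i + k * X) (M := M) (n := n)
        (X' := X') (v := lm * X) (b0 := ca * X' * Real.log 2) hG.law hϖ hA'
        (by
          have h2 := hG.act k hk n X' (le_trans (mul_le_mul_of_nonneg_right (min_le_left _ _)
            hXr) hX'1) hX'2 A' ((min_le_left _ _).trans hA')
          exact h2) (hG.vis j hj k hk)
      refine le_trans ?_ h1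
      have h2 : lm * X / ϖ ≤ ca / 2 * X' * Real.log 2 := by
        rw [div_le_iff₀ hϖ]
        calc lm * X ≤ ϖ * (ca / 2) * η * Real.log 2 * X :=
              mul_le_mul_of_nonneg_right hlmb hXr
          _ = ϖ * (ca / 2) * Real.log 2 * (η * X) := by ring
          _ ≤ ϖ * (ca / 2) * Real.log 2 * X' :=
              mul_le_mul_of_nonneg_left hX'1 (by positivity)
          _ = ca / 2 * X' * Real.log 2 * ϖ := by ring
      linarith only [h2]
    · rw [MI_eq_dp h0]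
      unfold dp
      have h1 : CH Q (blk X (by1 F (w j) (fun i => c i + k * X) M)
          (bz F (w j) (fun i => c i + k * X) M))
          (fun ω => (F.blb (w j) (fun i => c i + k * X) M ω, F.T ω)) ≤
          CH Q (blk X (by1 F (w j) (fun i => c i + k * X) M)
          (bz F (w j) (fun i => c i + k * X) M))
          (fun ω => (F.blb (w j) (fun i => c i + k * X) M ω,
            (F.blb (w j) (fun i => c i + k * X) M ω, F.T ω))) :=
        CH_mono_cond h0 fun ω ω' _ _ h => Prod.ext (Prod.ext_iff.mp h).1 h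
      linarith only [hιX', h1]
  · intro A' hA'
    exact hG.h5 j hj k hk A' ((min_le_left _ _).trans hA')
  · exact nstr_srd hG.law _ S hx₀a hx₀b q6 (hG.nstr j hj)

end Pool.DPA
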