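import Pool.Agent.H45.DPA.Gen3
import Pool.Agent.H45.DPA.Stmt
import Pool.Agent.H45.RPL.Hyp2

/-!
# The double plateau, part (alpha): one family
-/

set_option autoImplicit false

namespace Pool.DPA

open Finset Real
open Pool.Agent.H49.Ent Pool.Agent.H32.Dense Pool.STK Pool.KA Pool.KSAT Pool.K2S Pool.S6U
open Pool.PLV Pool.DPL Pool.S6B20

variable {J : ℕ} {F : Fam 3 J} {Q : F.Ω → ℝ} {σ : Fin 3 → Fin 3} {w q V H X : ℕ}
  {a s t : F.Ω → ℝ} {al nu kk bb : (Fin 3 → ℤ) × (ℕ × F.ζ) → ℝ} {B : ℝ}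

theorem tfr_bd (σ : Fin 3 → Fin 3) {a s t B : ℝ} (hB : 1 ≤ B) (ha : |a| ≤ B) (hs : |s| ≤ B)
    (ht : |t| ≤ B) (i j : Fin 3) : |tfr σ a s t i j| ≤ 3 * B := by
  have k0 : ∀ c : Prop, ∀ _ : Decidable c, |(if c then (1 : ℝ) else 0)| ≤ 1 := by
    intro c _
    split_ifs <;> norm_num
  have k1 : ∀ x : ℝ, |x| ≤ B → ∀ c : Prop, ∀ _ : Decidable c,
      |x * (if c then (1 : ℝ) else 0)| ≤ B := by
    intro x hx c _
    split_ifs
    · rw [mul_one]
      exact hx
    · rw [mul_zero, abs_zero]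
      linarith only [hB]
  fin_cases i
  · show |(if j = σ 0 then (1 : ℝ) else 0)| ≤ _
    have := k0 (j = σ 0) inferInstance
    linarith only [hB, this]
  · show |(if j = σ 1 then (1 : ℝ) else 0) - a * (if j = σ 0 then 1 else 0)| ≤ _
    refine (abs_sub _ _).trans ?_
    have h1 := k0 (j = σ 1) inferInstance
    have h2 := k1 a ha (j = σ 0) inferInstance
    linarith only [hB, h1, h2]
  · show |(if j = σ 2 then (1 : ℝ) else 0) - s * (if j = σ 1 then 1 else 0) -
      t * (if j = σ 0 then 1 else 0)| ≤ _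
    refine (abs_sub _ _).trans ((add_le_add (abs_sub _ _) le_rfl).trans ?_)
    have h1 := k0 (j = σ 2) inferInstance
    have h2 := k1 s hs (j = σ 1) inferInstance
    have h3 := k1 t ht (j = σ 0) inferInstance
    linarith only [hB, h1, h2, h3]

/-- The natural box is the context. -/
theorem blb_ctx (k : ℕ) : F.blb w (fun i => cvl q V H i + k * X) (frm σ a s t) =
    F.ctx σ w (w + q + k * X) (w + q + V + k * X) (w + q + V + H + k * X) a s t := by
  unfold Fam.ctx
  have e : (fun i => cvl q V H i + k * X) =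
      vpr w (w + q + k * X) (w + q + V + k * X) (w + q + V + H + k * X) := by
    funext i
    fin_cases i
    · show q + k * X = w + q + k * X - w
      omega
    · show q + V + k * X = w + q + V + k * X - w
      omega
    · show q + V + H + k * X = w + q + V + H + k * X - w
      omega
  rw [e]
  rfl

/-- The digits of the position given its cells. -/
theorem dgx_sbx (hQ : IsLaw Q) (hw : w ≤ J) (k : ℕ) {S : Type} (W : F.Ω → S)
    (hW : ∀ ω ω', 0 < Q ω → 0 < Q ω' → W ω = W ω' →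
      F.sbx σ (w + q + k * X + X) (w + q + V + k * X + X) (w + q + V + H + k * X + X) a s t ω =
        F.sbx σ (w + q + k * X + X) (w + q + V + k * X + X) (w + q + V + H + k * X + X) a s t ω' ∧
      F.blb w (fun i => cvl q V H i + k * X) (frm σ a s t) ω =
        F.blb w (fun i => cvl q V H i + k * X) (frm σ a s t) ω' ∧ F.T ω = F.T ω') :
    CH Q (dgx F w (fun i => cvl q V H i + k * X) (frm σ a s t) X) W ≤ 3 * Real.log 5 := by
  have h0 := hQ.nonneg
  have e5 : (3 : ℝ) * Real.log 5 = ((3 : ℕ) : ℝ) * Real.log (2 * 2 + 1) := by norm_num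
  rw [e5]
  refine Plk.CH_vec_const hQ _ W fun ω ω' hω hω' h i => ?_
  obtain ⟨b1, b2, b3⟩ := hW ω ω' hω hω' h
  have k2 := congrFun (Box.mkn_det (F := F) (w := w) (c := fun i => cvl q V H i + k * X)
    (M := frm σ a s t) b2 b3) i
  have g : ⌊(2 : ℝ) ^ (cvl q V H i + k * X + w + X) * mco (frm σ a s t ω) (F.x ω) i⌋ =
      ⌊(2 : ℝ) ^ (cvl q V H i + k * X + w + X) * mco (frm σ a s t ω') (F.x ω') i⌋ := by
    obtain ⟨-, g1, g2, g3⟩ := Vd.sbx_ext.1 b1
    fin_cases i
    · have e : cvl q V H 0 + k * X + w + X = w + q + k * X + X := by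
        show q + k * X + w + X = _
        omega
      show ⌊(2 : ℝ) ^ (cvl q V H 0 + k * X + w + X) * _⌋ = ⌊(2 : ℝ) ^ (cvl q V H 0 + k * X + w + X) * _⌋
      rw [e]
      exact g1
    · have e : cvl q V H 1 + k * X + w + X = w + q + V + k * X + X := by
        show q + V + k * X + w + X = _
        omega
      show ⌊(2 : ℝ) ^ (cvl q V H 1 + k * X + w + X) * _⌋ = ⌊(2 : ℝ) ^ (cvl q V H 1 + k * X + w + X) * _⌋
      rw [e]
      exact g2
    · have e : cvl q V H 2 + k * X + w + X = w + q + V + H + k * X + X := by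
        show q + V + H + k * X + w + X = _
        omega
      show ⌊(2 : ℝ) ^ (cvl q V H 2 + k * X + w + X) * _⌋ = ⌊(2 : ℝ) ^ (cvl q V H 2 + k * X + w + X) * _⌋
      rw [e]
      exact g3
  have k1 := Plk.abs_sub_lt_of_floor g
  refine (Plk.floor_sub_lt (c := 1) ?_).trans (by norm_num)
  have p1 := Box.pos_eq F hw (fun i => cvl q V H i + k * X) (frm σ a s t) ω i
  have p2 := Box.pos_eq F hw (fun i => cvl q V H i + k * X) (frm σ a s t) ω' i
  have e : (2 : ℝ) ^ X * F.mx w (fun i => cvl q V H i + k * X) (frm σ a s t) ω i -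
      2 ^ X * F.mx w (fun i => cvl q V H i + k * X) (frm σ a s t) ω' i =
      (2 : ℝ) ^ (cvl q V H i + k * X + w + X) * mco (frm σ a s t ω) (F.x ω) i -
        (2 : ℝ) ^ (cvl q V H i + k * X + w + X) * mco (frm σ a s t ω') (F.x ω') i := by
    rw [pow_add _ _ X, mul_assoc, mul_assoc, mul_comm ((2 : ℝ) ^ X) (mco _ _ _),
      mul_comm ((2 : ℝ) ^ X) (mco _ _ _), ← mul_assoc, ← mul_assoc, p1, p2, k2]
    ring
  rw [e]
  exact k1

/-- The context is visible. -/
theorem vis_of (hQ : IsLaw Q) (hB : 1 ≤ B) (hw : w ≤ J) {k L : ℕ} (hk : k < L)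
    (hlev : ∀ i, cvl q V H i + k * X + w ≤ J)
    (bd : ∀ ω, 0 < Q ω → |a ω| ≤ B ∧ |s ω| ≤ B ∧ |t ω| ≤ B)
    (on1 : ∀ ω, 0 < Q ω → |F.d ω (σ 1) - al (Fam.pt F ω) * F.d ω (σ 0) - nu (Fam.pt F ω)| ≤
      B / 2 ^ (q + V + (L + 1) * X))
    (on2 : ∀ ω, 0 < Q ω → |F.d ω (σ 2) - s ω * F.d ω (σ 1) - t ω * F.d ω (σ 0) -
      bb (Fam.pt F ω) - kk (Fam.pt F ω) * F.d ω (σ 0)| ≤ B / 2 ^ (q + V + H + (L + 1) * X))
    (an1 : ∀ ω, 0 < Q ω → |al (Fam.pt F ω) - a ω| ≤ B / 2 ^ V)
    (an2 : ∀ ω, 0 < Q ω → |kk (Fam.pt F ω)| ≤ B / 2 ^ (V + H)) :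
    CH Q (F.blb w (fun i => cvl q V H i + k * X) (frm σ a s t))
      (fun ω => (vd F (frm σ a s t) (cvl q V H 0 + k * X) ω, Fam.pt F ω)) ≤
    CH Q (fun ω => (a ω, s ω, t ω)) (Fam.pt F) +
      2 * (3 * Real.log (2 * (3 * 1 * (2 * (3 * (3 * B) + 3 * B))) + 3)) := by
  have h0 := hQ.nonneg
  have hB0 : (0 : ℝ) ≤ B := by linarith only [hB]
  have kX : k * X ≤ (L + 1) * X := Nat.mul_le_mul_right X (by omega)
  have c1 := CH_le_add h0 (F.blb w (fun i => cvl q V H i + k * X) (frm σ a s t))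
    (fun ω => (a ω, s ω, t ω))
    (fun ω => (vd F (frm σ a s t) (cvl q V H 0 + k * X) ω, Fam.pt F ω))
  have c2 : CH Q (fun ω => (a ω, s ω, t ω))
      (fun ω => (vd F (frm σ a s t) (cvl q V H 0 + k * X) ω, Fam.pt F ω)) ≤
      CH Q (fun ω => (a ω, s ω, t ω)) (Fam.pt F) :=
    CH_mono_cond h0 fun _ _ _ _ h => (Prod.ext_iff.mp h).2
  have c3 := Box.CH_mlb_of_pt (F := F) (p := Q) hQ (g := w) hw
    (k := fun i => cvl q V H i + k * X + w) (c := fun i => cvl q V H i + k * X)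
    (h := fun i => cvl q V H i + k * X) (r := fun i => cvl q V H i + k * X + w)
    (N := frm σ a s t) (M := frm σ a s t) (B := 3 * B) (D := 1) (by positivity) zero_le_one
    (fun ω hω i j => tfr_bd σ hB (bd ω hω).1 (bd ω hω).2.1 (bd ω hω).2.2 i j) hlev
    (fun _ => le_rfl)
    (fun ω _ => ⟨_, Box.cg_refl _, fun i j => by
      by_cases h : i = j
      · subst h
        rw [if_pos rfl, abs_one, one_mul, div_self (by positivity)]
      · rw [if_neg h, abs_zero]
        positivity, fun i j => by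
      by_cases h : i = j
      · subst h
        rw [if_pos rfl, abs_one, one_mul, div_self (by positivity)]
      · rw [if_neg h, abs_zero]
        positivity⟩)
    (fun ω => ((a ω, s ω, t ω),
      (vd F (frm σ a s t) (cvl q V H 0 + k * X) ω, Fam.pt F ω)))
    (fun ω ω' hω hω' h => by
      have h1 := Prod.ext_iff.mp h
      have h2 := Prod.ext_iff.mp h1.2
      have h3 : Fam.pt F ω = Fam.pt F ω' := h2.2
      have h4 := Prod.ext_iff.mp h3
      have ea := Prod.ext_iff.mp h1.1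
      have eb := Prod.ext_iff.mp ea.2
      have e1 : a ω = a ω' := ea.1
      have e2 : s ω = s ω' := eb.1
      have e3 : t ω = t ω' := eb.2
      have hM : frm σ a s t ω = frm σ a s t ω' := by
        unfold frm
        rw [e1, e2, e3]
      have d0 : |F.d ω (σ 0) - F.d ω' (σ 0)| ≤ 1 / 2 ^ (q + k * X) := by
        have g := Plk.abs_sub_lt_of_floor (h2.1 :
          ⌊(2 : ℝ) ^ (cvl q V H 0 + k * X) * mco (frm σ a s t ω) (F.d ω) 0⌋ =
          ⌊(2 : ℝ) ^ (cvl q V H 0 + k * X) * mco (frm σ a s t ω') (F.d ω') 0⌋)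
        have m1 : mco (frm σ a s t ω) (F.d ω) 0 = F.d ω (σ 0) := Box.mco_tfr0 _ _ _ _ _
        have m2 : mco (frm σ a s t ω') (F.d ω') 0 = F.d ω' (σ 0) := Box.mco_tfr0 _ _ _ _ _
        rw [m1, m2, ← mul_sub, abs_mul, abs_of_pos (by positivity)] at g
        rw [le_div_iff₀ (by positivity), mul_comm]
        exact g
      refine ⟨h4.1, h4.2, hM, hM, fun i => ?_⟩
      have pw : ∀ x y : ℕ, (2 : ℝ) ^ (x + y) = 2 ^ x * 2 ^ y := fun x y => pow_add _ _ _
      fin_cases i
      · show |mco (tfr σ (a ω) (s ω) (t ω)) (F.d ω) 0 -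
          mco (tfr σ (a ω) (s ω) (t ω)) (F.d ω') 0| ≤ 3 * B / 2 ^ (q + k * X)
        rw [Box.mco_tfr0, Box.mco_tfr0]
        refine d0.trans (div_le_div_of_nonneg_right (by linarith only [hB]) (by positivity))
      · show |mco (tfr σ (a ω) (s ω) (t ω)) (F.d ω) 1 -
          mco (tfr σ (a ω) (s ω) (t ω)) (F.d ω') 1| ≤ 3 * B / 2 ^ (q + V + k * X)
        rw [Box.mco_tfr1, Box.mco_tfr1]
        have o1 := (on1 ω hω).trans (Box.div_pow_mono hB0
          (by omega : q + V + k * X ≤ q + V + (L + 1) * X))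
        have o2 := (on1 ω' hω').trans (Box.div_pow_mono hB0
          (by omega : q + V + k * X ≤ q + V + (L + 1) * X))
        have n1 := an1 ω hω
        rw [← h3] at o2
        have e : F.d ω (σ 1) - a ω * F.d ω (σ 0) - (F.d ω' (σ 1) - a ω * F.d ω' (σ 0)) =
            (F.d ω (σ 1) - al (Fam.pt F ω) * F.d ω (σ 0) - nu (Fam.pt F ω)) -
            (F.d ω' (σ 1) - al (Fam.pt F ω) * F.d ω' (σ 0) - nu (Fam.pt F ω)) +
            (al (Fam.pt F ω) - a ω) * (F.d ω (σ 0) - F.d ω' (σ 0)) := by ring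
        rw [e]
        have g1 : |(al (Fam.pt F ω) - a ω) * (F.d ω (σ 0) - F.d ω' (σ 0))| ≤
            B / 2 ^ (q + V + k * X) := by
          rw [abs_mul]
          calc _ ≤ B / 2 ^ V * (1 / 2 ^ (q + k * X)) :=
                mul_le_mul n1 d0 (abs_nonneg _) (by positivity)
            _ = B / 2 ^ (q + V + k * X) := by
                rw [show q + V + k * X = V + (q + k * X) by omega, pw V]
                field_simp
        have g2 := abs_add_le ((F.d ω (σ 1) - al (Fam.pt F ω) * F.d ω (σ 0) -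
          nu (Fam.pt F ω)) - (F.d ω' (σ 1) - al (Fam.pt F ω) * F.d ω' (σ 0) -
          nu (Fam.pt F ω))) ((al (Fam.pt F ω) - a ω) * (F.d ω (σ 0) - F.d ω' (σ 0)))
        have g3 := abs_sub (F.d ω (σ 1) - al (Fam.pt F ω) * F.d ω (σ 0) - nu (Fam.pt F ω))
          (F.d ω' (σ 1) - al (Fam.pt F ω) * F.d ω' (σ 0) - nu (Fam.pt F ω))
        have e3 : 3 * B / (2 : ℝ) ^ (q + V + k * X) = B / 2 ^ (q + V + k * X) +
          B / 2 ^ (q + V + k * X) + B / 2 ^ (q + V + k * X) := by ring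
        rw [e3]
        linarith only [o1, o2, g1, g2, g3]
      · show |mco (tfr σ (a ω) (s ω) (t ω)) (F.d ω) 2 -
          mco (tfr σ (a ω) (s ω) (t ω)) (F.d ω') 2| ≤ 3 * B / 2 ^ (q + V + H + k * X)
        rw [Box.mco_tfr2, Box.mco_tfr2]
        have o1 := (on2 ω hω).trans (Box.div_pow_mono hB0
          (by omega : q + V + H + k * X ≤ q + V + H + (L + 1) * X))
        have o2 := (on2 ω' hω').trans (Box.div_pow_mono hB0
          (by omega : q + V + H + k * X ≤ q + V + H + (L + 1) * X))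
        have n1 := an2 ω hω
        rw [← h3, ← e2, ← e3] at o2
        have e : F.d ω (σ 2) - s ω * F.d ω (σ 1) - t ω * F.d ω (σ 0) -
            (F.d ω' (σ 2) - s ω * F.d ω' (σ 1) - t ω * F.d ω' (σ 0)) =
            (F.d ω (σ 2) - s ω * F.d ω (σ 1) - t ω * F.d ω (σ 0) - bb (Fam.pt F ω) -
              kk (Fam.pt F ω) * F.d ω (σ 0)) -
            (F.d ω' (σ 2) - s ω * F.d ω' (σ 1) - t ω * F.d ω' (σ 0) - bb (Fam.pt F ω) -
              kk (Fam.pt F ω) * F.d ω' (σ 0)) +
            kk (Fam.pt F ω) * (F.d ω (σ 0) - F.d ω' (σ 0)) := by ring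
        rw [e]
        have g1 : |kk (Fam.pt F ω) * (F.d ω (σ 0) - F.d ω' (σ 0))| ≤
            B / 2 ^ (q + V + H + k * X) := by
          rw [abs_mul]
          calc _ ≤ B / 2 ^ (V + H) * (1 / 2 ^ (q + k * X)) :=
                mul_le_mul n1 d0 (abs_nonneg _) (by positivity)
            _ = B / 2 ^ (q + V + H + k * X) := by
                rw [show q + V + H + k * X = (V + H) + (q + k * X) by omega, pw (V + H)]
                field_simp
        have g2 := abs_add_le ((F.d ω (σ 2) - s ω * F.d ω (σ 1) - t ω * F.d ω (σ 0) -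
          bb (Fam.pt F ω) - kk (Fam.pt F ω) * F.d ω (σ 0)) -
          (F.d ω' (σ 2) - s ω * F.d ω' (σ 1) - t ω * F.d ω' (σ 0) - bb (Fam.pt F ω) -
              kk (Fam.pt F ω) * F.d ω' (σ 0))) (kk (Fam.pt F ω) * (F.d ω (σ 0) - F.d ω' (σ 0)))
        have g3 := abs_sub (F.d ω (σ 2) - s ω * F.d ω (σ 1) - t ω * F.d ω (σ 0) -
          bb (Fam.pt F ω) - kk (Fam.pt F ω) * F.d ω (σ 0))
          (F.d ω' (σ 2) - s ω * F.d ω' (σ 1) - t ω * F.d ω' (σ 0) -
              bb (Fam.pt F ω) - kk (Fam.pt F ω) * F.d ω' (σ 0))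
        have e3 : 3 * B / (2 : ℝ) ^ (q + V + H + k * X) = B / 2 ^ (q + V + H + k * X) +
          B / 2 ^ (q + V + H + k * X) + B / 2 ^ (q + V + H + k * X) := by ring
        rw [e3]
        linarith only [o1, o2, g1, g2, g3])
  have c4 : F.blb w (fun i => cvl q V H i + k * X) (frm σ a s t) =
    F.mlb w (fun i => cvl q V H i + k * X + w) (fun i => cvl q V H i + k * X)
      (frm σ a s t) := rfl
  rw [← c4] at c3
  push_cast at c3
  linarith only [c1, c2, c3]

/-- The upper bound on the block. -/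
theorem blk_le (hQ : IsLaw Q) (hw : w ≤ J) (hσ : Function.Injective σ) (k : ℕ) {h : ℝ}
    (hd : CH Q
      (F.sbx σ (w + q + k * X + X) (w + q + V + k * X + X) (w + q + V + H + k * X + X) a s t)
      (fun ω => (F.sbx σ (w + q + k * X) (w + q + V + k * X) (w + q + V + H + k * X) a s t ω,
        F.W ω)) ≤ h) :
    CH Q (blk X (by1 F w (fun i => cvl q V H i + k * X) (frm σ a s t))
      (bz F w (fun i => cvl q V H i + k * X) (frm σ a s t)))
      (fun ω => (F.blb w (fun i => cvl q V H i + k * X) (frm σ a s t) ω, F.T ω)) ≤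
      h + 3 * Real.log 5 + 3 * Real.log 15 := by
  have h0 := hQ.nonneg
  obtain ⟨b, hb⟩ : ∃ b, b = F.blb w (fun i => cvl q V H i + k * X) (frm σ a s t) := ⟨_, rfl⟩
  have hb' : b = F.ctx σ w (w + q + k * X) (w + q + V + k * X) (w + q + V + H + k * X) a s t := by
    rw [hb]
    exact blb_ctx k
  have a0 : CH Q (blk X (by1 F w (fun i => cvl q V H i + k * X) (frm σ a s t))
      (bz F w (fun i => cvl q V H i + k * X) (frm σ a s t))) (fun ω => (b ω, F.T ω)) ≤
      CH Q (dgx F w (fun i => cvl q V H i + k * X) (frm σ a s t) X) (fun ω => (b ω, F.T ω)) :=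
    CH_mono_left h0 fun ω ω' _ _ h => blk_of_dgx (Prod.ext_iff.mp h).1
  have a2 := CH_le_add h0 (dgx F w (fun i => cvl q V H i + k * X) (frm σ a s t) X)
    (F.sbx σ (w + q + k * X + X) (w + q + V + k * X + X) (w + q + V + H + k * X + X) a s t)
    (fun ω => (b ω, F.T ω))
  have a3 := dgx_sbx (σ := σ) (a := a) (s := s) (t := t) (q := q) (V := V) (H := H) (X := X)
    hQ hw k
    (fun ω => (F.sbx σ (w + q + k * X + X) (w + q + V + k * X + X) (w + q + V + H + k * X + X)
      a s t ω, (b ω, F.T ω))) (fun ω ω' _ _ h => by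
      have h1 := Prod.ext_iff.mp h
      have h2 := Prod.ext_iff.mp h1.2
      refine ⟨h1.1, ?_, h2.2⟩
      rw [← hb]
      exact h2.1)
  have a4 := CH_le_add h0
    (F.sbx σ (w + q + k * X + X) (w + q + V + k * X + X) (w + q + V + H + k * X + X) a s t)
    (F.sbx σ (w + q + k * X) (w + q + V + k * X) (w + q + V + H + k * X) a s t)
    (fun ω => (b ω, F.T ω))
  have a5 := Pool.RPL.sbx_ctx (σ := σ) (a := a) (s := s) (t := t) hQ (w := w)
    (r := w + q + k * X) (U := w + q + V + k * X) (P := w + q + V + H + k * X) hw (by omega)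
    (by omega) (by omega) (fun ω => (b ω, F.T ω))
    (fun ω ω' _ _ h => by
      rw [← hb']
      exact Prod.ext_iff.mp h) hσ
  have a6 : CH Q
      (F.sbx σ (w + q + k * X + X) (w + q + V + k * X + X) (w + q + V + H + k * X + X) a s t)
      (fun ω => (F.sbx σ (w + q + k * X) (w + q + V + k * X) (w + q + V + H + k * X) a s t ω,
        (b ω, F.T ω))) ≤ CH Q
      (F.sbx σ (w + q + k * X + X) (w + q + V + k * X + X) (w + q + V + H + k * X + X) a s t)
      (fun ω => (F.sbx σ (w + q + k * X) (w + q + V + k * X) (w + q + V + H + k * X) a s t ω,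
        F.W ω)) := by
    refine CH_mono_cond h0 fun ω ω' _ _ h => ?_
    have h1 := Prod.ext_iff.mp h
    have h2 := Prod.ext_iff.mp h1.2
    have h4 : b ω = b ω' := h2.1
    rw [hb] at h4
    have h3 : F.Z ω = F.Z ω' := (blb_ext h4).2.2.2
    exact Prod.ext h1.1 (Prod.ext h2.2 h3)
  rw [← hb]
  linarith only [hd, a0, a2, a3, a4, a5, a6]

/-- **The double plateau, part (alpha), one family.** -/
theorem dpla_one : DplAStmt := by
  classical
  intro c ca B hc hca hB
  have hB0 : (0 : ℝ) ≤ B := by linarith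
  have hl2 : 0 < Real.log 2 := Real.log_pos (by norm_num)
  obtain ⟨x₀, lm, κ, ϖ, X₀, N, L, hx₀, hlm, hκ, hκ1, hϖ, hϖ1, hN, hL, hmain⟩ :=
    plateau 2 (3 * B) (c / 2) ca (by linarith only [hB]) (by positivity) hca
  obtain ⟨C1, hC1⟩ : ∃ C1 : ℝ, C1 =
    2 * (3 * Real.log (2 * (3 * 1 * (2 * (3 * (3 * B) + 3 * B))) + 3)) := ⟨_, rfl⟩
  obtain ⟨C2, hC2⟩ : ∃ C2 : ℝ, C2 = 3 * Real.log 5 + 3 * Real.log 15 := ⟨_, rfl⟩
  have l5 : 0 < Real.log 5 := Real.log_pos (by norm_num)
  have l15 : 0 < Real.log 15 := Real.log_pos (by norm_num)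
  have lC : 0 ≤ Real.log (2 * (3 * 1 * (2 * (3 * (3 * B) + 3 * B))) + 3) :=
    Real.log_nonneg (by nlinarith only [hB])
  have hC1p : 0 ≤ C1 := by rw [hC1]; positivity
  have hC2p : 0 ≤ C2 := by rw [hC2]; positivity
  obtain ⟨n₁, hn₁⟩ := exists_nat_gt (2 * C1 / lm + 2 * C2 / (c * Real.log 2))
  refine ⟨x₀, lm / 2, κ, ϖ, max X₀ n₁, N, L, hx₀, by positivity, hκ, hκ1, hϖ, hϖ1, hN, hL, ?_⟩
  intro J F A σ X w q V H a s t al nu kk bb hX hD
  obtain ⟨bij, law, step, top, time, det, vdt, bd, on1, on2, an1, an2, dfc, act, str⟩ := hD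
  obtain ⟨Q, hQd⟩ : ∃ Q, Q = Pool.Agent.H49.Ent.cond F.p A True := ⟨_, rfl⟩
  rw [← hQd] at law time det vdt
  simp only [← hQd] at str
  have hpA : 0 < Pe F.p A := by
    by_contra hcon
    have h1 : Pe F.p A = 0 := le_antisymm (not_lt.1 hcon) (Pe_nonneg F.isLaw A)
    have h2 : ∀ ω, Q ω = 0 := by
      intro ω
      rw [hQd, Pool.RPL.cond_ev_eq]
      split_ifs
      · rw [h1, div_zero]
      · rfl
    have h3 := law.sum_one
    simp only [h2, Finset.sum_const_zero] at h3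
    exact one_ne_zero h3.symm
  have hA : ∀ ω, 0 < Q ω → A ω := by
    intro ω hω
    rw [hQd] at hω
    exact of_eq_true ((cond_pos_iff F.isLaw.nonneg A True ω).1 hω).2
  have h0 := law.nonneg
  have hX0 : X₀ ≤ X := (le_max_left _ _).trans hX
  have hX1 : (n₁ : ℝ) ≤ X := by exact_mod_cast (le_max_right X₀ n₁).trans hX
  have hXr : (0 : ℝ) ≤ X := Nat.cast_nonneg X
  have p1 : 0 ≤ 2 * C1 / lm := by positivity
  have p2 : 0 ≤ 2 * C2 / (c * Real.log 2) := by positivity
  have q1 : 2 * C1 ≤ lm * X := by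
    have : 2 * C1 / lm ≤ X := by linarith only [hn₁, hX1, p2]
    rw [div_le_iff₀ hlm] at this
    linarith only [this]
  have q2 : 2 * C2 ≤ c * Real.log 2 * X := by
    have : 2 * C2 / (c * Real.log 2) ≤ X := by linarith only [hn₁, hX1, p1]
    rw [div_le_iff₀ (by positivity)] at this
    linarith only [this]
  -- the windows
  have hwN : ∀ i, ∀ j, j + i = N → w j ≤ w N := by
    intro i
    induction i with
    | zero => intro j hj; rw [show j = N by omega]
    | succ i ih =>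
      intro j hj
      have := step j (by omega)
      have := ih (j + 1) (by omega)
      omega
  have hlev : ∀ j < N, ∀ k < L, ∀ i : Fin 3, cvl q V H i + k * X + w j + X ≤ J := by
    intro j hj k hk i
    have h1 := hwN (N - j) j (by omega)
    have h2 : (k + 2) * X ≤ (L + 2) * X := Nat.mul_le_mul_right X (by omega)
    have h3 : (k + 2) * X = k * X + 2 * X := by ring
    have h4 : cvl q V H i ≤ q + V + H := by
      fin_cases i
      · show q ≤ _
        omega
      · show q + V ≤ _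
        omega
      · exact le_rfl
    omega
  have hwJ : ∀ j < N, w j ≤ J := by
    intro j hj
    have := hlev j hj 0 hL 0
    omega
  have bd' : ∀ ω, 0 < Q ω → |a ω| ≤ B ∧ |s ω| ≤ B ∧ |t ω| ≤ B := fun ω hω => bd ω (hA ω hω)
  have sb : ∀ ω, 0 < Q ω → ∀ i, |slp F V H a al kk ω i| ≤ B := by
    intro ω hω i
    fin_cases i
    · show |2 ^ V * (al (Fam.pt F ω) - a ω)| ≤ B
      rw [abs_mul, abs_of_pos (by positivity : (0 : ℝ) < 2 ^ V)]
      calc (2 : ℝ) ^ V * |al (Fam.pt F ω) - a ω| ≤ 2 ^ V * (B / 2 ^ V) :=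
            mul_le_mul_of_nonneg_left (an1 ω (hA ω hω)) (by positivity)
        _ = B := by field_simp
    · show |2 ^ (V + H) * kk (Fam.pt F ω)| ≤ B
      rw [abs_mul, abs_of_pos (by positivity : (0 : ℝ) < 2 ^ (V + H))]
      calc (2 : ℝ) ^ (V + H) * |kk (Fam.pt F ω)| ≤ 2 ^ (V + H) * (B / 2 ^ (V + H)) :=
            mul_le_mul_of_nonneg_left (an2 ω (hA ω hω)) (by positivity)
        _ = B := by field_simp
  refine hmain J F Q X w (cvl q V H) (frm σ a s t) (slp F V H a al kk)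
    (fun ω => ![2 ^ (q + V) * nu (Fam.pt F ω), 2 ^ (q + V + H) * bb (Fam.pt F ω)]) hX0 ?_
  refine ⟨law, fun j hj => step j (by omega), hlev, ?_, ?_, ?_, ?_, ?_, ?_, ?_, ?_, ?_, ?_, str⟩
  · -- time
    refine le_trans ?_ time
    have : lm / 2 * X ≤ lm * X := by nlinarith only [hC1, lC, q1]
    linarith only [hC1, lC, q1]
  · -- det
    intro ω ω' hω hω' e
    have h1 := Prod.ext_iff.mp (det ω ω' hω hω' e)
    have h2 := Prod.ext_iff.mp h1.2
    have e1 : a ω = a ω' := h1.1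
    have e2 : s ω = s ω' := h2.1
    have e3 : t ω = t ω' := h2.2
    unfold frm
    rw [e1, e2, e3]
  · -- bd
    intro ω hω i j
    obtain ⟨b1, b2, b3⟩ := bd' ω hω
    exact tfr_bd σ hB b1 b2 b3 i j
  · -- dS
    intro ω ω' _ _ e
    have h1 := Prod.ext_iff.mp e
    have h2 : Fam.pt F ω = Fam.pt F ω' := h1.1
    have h3 : a ω = a ω' := frm_a h1.2
    unfold slp
    rw [h2, h3]
  · -- dW
    intro ω ω' _ _ e
    have h2 : Fam.pt F ω = Fam.pt F ω' := (Prod.ext_iff.mp e).1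
    simp only [h2]
  · -- Sb
    intro ω hω i
    have := sb ω hω i
    linarith only [hB, this]
  · -- str
    intro ω hω i
    have b3 : ∀ {x y : ℝ}, x ≤ B / y → 0 < y → x ≤ 3 * B / y := by
      intro x y hx hy
      exact hx.trans (div_le_div_of_nonneg_right (by linarith only [hB]) hy.le)
    have hLX : L * X ≤ (L + 1) * X := Nat.mul_le_mul_right X (by omega)
    refine b3 ?_ (by positivity)
    fin_cases i
    · show |2 ^ (q + V) * mco (tfr σ (a ω) (s ω) (t ω)) (F.d ω) 1 -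
        2 ^ V * (al (Fam.pt F ω) - a ω) *
          (2 ^ q * mco (tfr σ (a ω) (s ω) (t ω)) (F.d ω) 0) - 2 ^ (q + V) * nu (Fam.pt F ω)| ≤ _
      rw [Box.mco_tfr0, Box.mco_tfr1]
      have e1 : 2 ^ (q + V) * (F.d ω (σ 1) - a ω * F.d ω (σ 0)) -
          2 ^ V * (al (Fam.pt F ω) - a ω) * (2 ^ q * F.d ω (σ 0)) -
          2 ^ (q + V) * nu (Fam.pt F ω) = 2 ^ (q + V) * (F.d ω (σ 1) -
            al (Fam.pt F ω) * F.d ω (σ 0) - nu (Fam.pt F ω)) := by
        rw [pow_add]
        ring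
      rw [e1, abs_mul, abs_of_pos (by positivity : (0 : ℝ) < 2 ^ (q + V))]
      have h1 := (on1 ω (hA ω hω)).trans (Box.div_pow_mono hB0
        (by omega : q + V + L * X ≤ q + V + (L + 1) * X))
      calc _ ≤ (2 : ℝ) ^ (q + V) * (B / 2 ^ (q + V + L * X)) :=
            mul_le_mul_of_nonneg_left h1 (by positivity)
        _ = B / 2 ^ (L * X) := by
            rw [pow_add _ (q + V)]
            field_simp
    · show |2 ^ (q + V + H) * mco (tfr σ (a ω) (s ω) (t ω)) (F.d ω) 2 -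
        2 ^ (V + H) * kk (Fam.pt F ω) *
          (2 ^ q * mco (tfr σ (a ω) (s ω) (t ω)) (F.d ω) 0) -
          2 ^ (q + V + H) * bb (Fam.pt F ω)| ≤ _
      rw [Box.mco_tfr0, Box.mco_tfr2]
      have e1 : 2 ^ (q + V + H) * (F.d ω (σ 2) - s ω * F.d ω (σ 1) - t ω * F.d ω (σ 0)) -
          2 ^ (V + H) * kk (Fam.pt F ω) * (2 ^ q * F.d ω (σ 0)) -
          2 ^ (q + V + H) * bb (Fam.pt F ω) = 2 ^ (q + V + H) * (F.d ω (σ 2) -
            s ω * F.d ω (σ 1) - t ω * F.d ω (σ 0) - bb (Fam.pt F ω) -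
            kk (Fam.pt F ω) * F.d ω (σ 0)) := by
        rw [show q + V + H = q + (V + H) by omega, pow_add _ q (V + H)]
        ring
      rw [e1, abs_mul, abs_of_pos (by positivity : (0 : ℝ) < 2 ^ (q + V + H))]
      have h1 := (on2 ω (hA ω hω)).trans (Box.div_pow_mono hB0
        (by omega : q + V + H + L * X ≤ q + V + H + (L + 1) * X))
      calc _ ≤ (2 : ℝ) ^ (q + V + H) * (B / 2 ^ (q + V + H + L * X)) :=
            mul_le_mul_of_nonneg_left h1 (by positivity)
        _ = B / 2 ^ (L * X) := by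
            rw [pow_add _ (q + V + H)]
            field_simp
  · -- vis
    intro j hj k hk
    have h1 := vis_of (σ := σ) (a := a) (s := s) (t := t) (al := al) (nu := nu) (kk := kk)
      (bb := bb) (q := q) (V := V) (H := H) (X := X) law hB (hwJ j hj) hk
      (fun i => by have := hlev j hj k hk i; omega) bd'
      (fun ω hω => on1 ω (hA ω hω)) (fun ω hω => on2 ω (hA ω hω))
      (fun ω hω => an1 ω (hA ω hω)) (fun ω hω => an2 ω (hA ω hω))
    rw [← hC1] at h1
    linarith only [vdt, q1, h1]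
  · -- act
    intro k hk n X' hX'1 hX'2 A' hA'
    have hPe : Pe Q A' = Pe F.p (fun ω => A ω ∧ A' ω) / Pe F.p A := by
      rw [hQd]
      exact Pool.K2S.Pe_cond A'
    have h2 := act k hk n X' hX'1 hX'2 (fun ω => A ω ∧ A' ω) (fun ω h => h.1) (by
        rw [hPe, le_div_iff₀ hpA] at hA'
        exact hA')
    rw [hQd, Pool.RPL.cond_and_ev F.p hpA.ne']
    have e1 : ∀ n : ℕ, vd F (frm σ a s t) (cvl q V H 0 + k * X + n) =
        fun ω => F.D (q + k * X + n) ω (σ 0) := by
      intro n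
      funext ω
      show ⌊(2 : ℝ) ^ (cvl q V H 0 + k * X + n) * mco (tfr σ (a ω) (s ω) (t ω)) (F.d ω) 0⌋ = _
      rw [Box.mco_tfr0]
      rfl
    rw [e1, e1, ← add_assoc]
    exact h2
  · -- h5
    intro j hj k hk A' hA'
    have hPe : Pe Q A' = Pe F.p (fun ω => A ω ∧ A' ω) / Pe F.p A := by
      rw [hQd]
      exact Pool.K2S.Pe_cond A'
    have h2 := dfc j hj k hk (fun ω => A ω ∧ A' ω) (fun ω h => h.1) (by
        rw [hPe, le_div_iff₀ hpA] at hA'
        exact hA')
    rw [← Pool.RPL.cond_and_ev F.p hpA.ne', ← hQd] at h2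
    have hA0 : 0 < Pe Q A' := lt_of_lt_of_le hϖ hA'
    have h3 := blk_le (σ := σ) (a := a) (s := s) (t := t) (isLaw_cond law hA0) (hwJ j hj)
      bij.1 k h2
    refine h3.trans ?_
    push_cast
    have e : (2 + 1 - c / 2) * X * Real.log 2 = (3 - c) * X * Real.log 2 +
      c * Real.log 2 * X / 2 := by ring
    rw [e]
    linarith only [hC2, q2]

end Pool.DPA
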